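import Pool.Agent.Lib_helper84.NE.Defs
import Pool.Agent.Lib_helper84.HSGF.GA1
import Pool.Agent.Lib_helper84.HSGF.GA3
import Pool.Agent.Lib_helper45.HSF.KI
import Pool.Agent.Lib_helper84.LVF.LN
import Pool.Agent.Lib_helper84.LVF.LO

/-! # Newforms, block NJ: the function `λ` on fractional ideals -/

namespace Pool.Agent.HSG.LV

open Complex MeasureTheory Filter Topology UpperHalfPlane NumberField IsDedekindDomain
open scoped nonZeroDivisors MatrixGroups ENNReal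

variable {K : Type} [Field K] [NumberField K]

variable {n : Id K} {k : Em K → ℕ} {μ : Em K → ℝ} {om : Id K → ℂ} {lam : Pr K → ℂ}
  {F : (Em K → ℍ) → Pt n → ℂ}

theorem nj_int (j : Pr K →₀ ℕ) : IsInt (HS.idl j) := HS.ki_le_one j

theorem nj_pow (p : Pr K) (j : ℕ) : pI p ^ j = HS.idl (Finsupp.single p j) :=
  (HS.idl_single p j).symm

theorem nj_one (p : Pr K) : pI p = HS.idl (Finsupp.single p 1) := by
  rw [← nj_pow, pow_one]

theorem lamF_idl (w lam : Pr K → ℂ) (j : Pr K →₀ ℕ) :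
    lamF w lam (HS.idl j) = hl w lam j := by
  have hex : ∃ i : Pr K →₀ ℕ, HS.idl i = HS.idl j := ⟨j, rfl⟩
  unfold lamF
  rw [dif_pos hex, HS.idl_inj hex.choose_spec]

theorem lamF_int (w lam : Pr K → ℂ) {m : Id K} (hm : ¬ IsInt m) : lamF w lam m = 0 := by
  unfold lamF
  rw [dif_neg]
  rintro ⟨j, rfl⟩
  exact hm (nj_int j)

theorem lamF_one (w lam : Pr K → ℂ) : lamF w lam 1 = 1 := by
  rw [← HS.idl_zero, lamF_idl, hl_zero]

theorem nj_dv {p : Pr K} {i : Pr K →₀ ℕ} (h : p ∈ i.support) : Dv p (HS.idl i) := by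
  have h0 : i p ≠ 0 := Finsupp.mem_support_iff.1 h
  have h1 : Finsupp.single p 1 ≤ i := by
    rw [Finsupp.single_le_iff]
    omega
  have h2 : i = (i - Finsupp.single p 1) + Finsupp.single p 1 := (tsub_add_cancel_of_le h1).symm
  have h3 : HS.idl i / pI p = HS.idl (i - Finsupp.single p 1) := by
    conv_lhs => rw [h2]
    rw [HS.idl_add, ← nj_one]
    exact mul_div_cancel_right _ _
  unfold Dv
  rw [h3]
  exact nj_int _

theorem lamF_mul (w lam : Pr K → ℂ) {a b : Id K} (ha : IsInt a) (hb : IsInt b)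
    (hc : Cp b a) : lamF w lam (a * b) = lamF w lam a * lamF w lam b := by
  obtain ⟨i, rfl⟩ := (HS.idl_surj a).1 ha
  obtain ⟨j, rfl⟩ := (HS.idl_surj b).1 hb
  rw [← HS.idl_add, lamF_idl, lamF_idl, lamF_idl]
  refine hl_add w lam ?_
  rw [Finset.disjoint_left]
  intro p hp hq
  exact hc.2 p (nj_dv hp) (nj_dv hq)

theorem nj_hk (w lam : Pr K → ℂ) (p : Pr K) (j : ℕ) :
    lamF w lam (pI p ^ j) = hk (lam p) (w p) j := by
  rw [nj_pow, lamF_idl, hl_single]

theorem lamF_pI (w lam : Pr K → ℂ) (p : Pr K) : lamF w lam (pI p) = lam p := by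
  have h := nj_hk w lam p 1
  rw [pow_one] at h
  rw [h]
  rfl

theorem lamF_hecke (w lam : Pr K → ℂ) (p : Pr K) (j : ℕ) :
    lamF w lam (pI p ^ (j + 2)) =
      lamF w lam (pI p) * lamF w lam (pI p ^ (j + 1)) - w p * lamF w lam (pI p ^ j) := by
  rw [lamF_pI, nj_hk, nj_hk, nj_hk]
  rfl

theorem nj_norm (w lam : Pr K → ℂ) (s : ℂ) (j : Pr K →₀ ℕ) :
    ‖lamF w lam (HS.idl j) * ((nI (HS.idl j) : ℝ) : ℂ) ^ (-s)‖ =
      ‖hl w lam j‖ * nI (HS.idl j) ^ (-s.re) := by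
  rw [norm_mul, lamF_idl, norm_cpow_eq_rpow_re_of_pos (nI_pos _), neg_re]

/-- the Euler product -/
theorem lamF_euler (w lam : Pr K → ℂ) {s : ℂ}
    (hs : Summable (fun m : Id K => ‖lamF w lam m * ((nI m : ℝ) : ℂ) ^ (-s)‖)) :
    HasProd (fun p : Pr K => (1 - lam p * (qP p : ℂ) ^ (-s) +
        w p * (qP p : ℂ) ^ (-2 * s))⁻¹)
      (∑' m : Id K, lamF w lam m * ((nI m : ℝ) : ℂ) ^ (-s)) := by
  have hs1 : Summable (fun m : Pr K →₀ ℕ => ‖hl w lam m‖ * nI (HS.idl m) ^ (-s.re)) := by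
    have h1 := hs.comp_injective (HS.idl_inj (K := K))
    refine h1.congr fun j => ?_
    exact nj_norm w lam s j
  have h := hl_prod w lam (1 : Id K →* ℂˣ) (fun p => by simp) hs1
  have e1 : (∑' m : Id K, lamF w lam m * ((nI m : ℝ) : ℂ) ^ (-s)) =
      ∑' m : Pr K →₀ ℕ, hl w lam m * (((1 : Id K →* ℂˣ) (HS.idl m) : ℂˣ) : ℂ) *
        (nI (HS.idl m) : ℂ) ^ (-s) := by
    have h2 : Function.support (fun m : Id K => lamF w lam m * ((nI m : ℝ) : ℂ) ^ (-s)) ⊆
        Set.range (HS.idl (K := K)) := by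
      intro m hm
      by_contra hc
      apply hm
      have h3 : ¬ IsInt m := by
        intro hi
        exact hc ((HS.idl_surj m).1 hi)
      show lamF w lam m * ((nI m : ℝ) : ℂ) ^ (-s) = 0
      rw [lamF_int w lam h3, zero_mul]
    rw [← (HS.idl_inj (K := K)).tsum_eq h2]
    refine tsum_congr fun j => ?_
    rw [lamF_idl]
    simp
  rw [e1]
  refine h.congr_fun ?_
  intro p
  simp

end Pool.Agent.HSG.LV
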