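import Pool.Agent.Lib_helper84.NE.Defs
import Pool.Agent.Lib_helper84.LVF.LB
import Pool.Agent.Lib_helper84.LVF.LC

/-! # Block NA (RAW): the two languages -/

namespace Pool.Agent.HSG.LV

open Complex MeasureTheory Filter Topology UpperHalfPlane NumberField IsDedekindDomain
open scoped nonZeroDivisors MatrixGroups ENNReal

variable {K : Type} [Field K] [NumberField K]

variable {n : Id K} {k : Em K → ℕ} {μ : Em K → ℝ} {om : Id K → ℂ} {lam : Pr K → ℂ}
  {F : (Em K → ℍ) → Pt n → ℂ}

theorem dvN (p : Pr K) (a : Id K) : N.Dv p a ↔ Dv p a := by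
  unfold Dv
  rw [isInt_div, ga1_le]
  exact Iff.rfl

theorem na_smul (p : Pr K) (L : Lat K) :
    (p.asIdeal • L.M : Submodule (𝓞 K) (Fin 2 → K)) = (L.sm (pI p)).M := by
  show _ = (pI p).m • L.M
  have hmem : ∀ x : K, x ∈ (pI p).m ↔ ∃ y ∈ p.asIdeal, (y : K) = x := by
    intro x
    show x ∈ ((p.asIdeal : FractionalIdeal (𝓞 K)⁰ K) : Submodule (𝓞 K) K) ↔ _
    rw [FractionalIdeal.coe_coeIdeal, IsLocalization.mem_coeSubmodule]
  apply le_antisymm
  · rw [Submodule.smul_le]
    intro r hr v hv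
    rw [gb1_osmul]
    exact Submodule.smul_mem_smul ((hmem _).2 ⟨r, hr, rfl⟩) hv
  · rw [Submodule.smul_le]
    intro x hx v hv
    obtain ⟨y, hy, rfl⟩ := (hmem x).1 hx
    rw [← gb1_osmul]
    exact Submodule.smul_mem_smul hy hv

theorem primN (n : Id K) (L : Lat K) (v : Fin 2 → K) : N.Prim n L v ↔ Prim n L v := by
  unfold N.Prim Prim
  simp only [dvN, na_smul]

theorem copN {n a : Id K} (ha : IsInt a) : N.Cop a n ↔ Cp n a := by
  unfold N.Cop Cp
  simp only [dvN]
  exact ⟨fun h => ⟨ha, h⟩, fun h => h.2⟩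

theorem raw_of {L : Lat K} {v : Fin 2 → K} (h : Prim n L v) (z : Em K → ℍ) :
    raw F z L v = F z (Pt.of L v h) := by
  unfold raw
  rw [dif_pos h]

theorem raw_S (b : Id K) (z : Em K → ℍ) :
    raw F z (Lat.ds b 1) ![0, 1] = F z (sS n b) ∧ raw F z (Lat.ds 1 b) ![1, 0] = F z (sZ n b) := by
  have key1 : ∀ c : Id K, c = 1 → ∀ (h : Prim n (Lat.ds b c) ![0, 1])
      (h' : Prim n (Lat.ds b 1) ![0, 1]), Pt.of (Lat.ds b 1) ![0, 1] h' =
        Pt.of (Lat.ds b c) ![0, 1] h := by
    rintro c rfl h h'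
    rfl
  have key2 : ∀ c : Id K, c = 1 → ∀ (h : Prim n (Lat.ds c b) ![1, 0])
      (h' : Prim n (Lat.ds 1 b) ![1, 0]), Pt.of (Lat.ds 1 b) ![1, 0] h' =
        Pt.of (Lat.ds c b) ![1, 0] h := by
    rintro c rfl h h'
    rfl
  have h1 : Prim n (Lat.ds b 1) ![0, 1] := by
    have := prim_S b (cp_one n)
    rwa [inv_one] at this
  have h2 : Prim n (Lat.ds 1 b) ![1, 0] := by
    have := prim_Z b (cp_one n)
    rwa [inv_one] at this
  constructor
  · rw [raw_of h1, key1 1⁻¹ inv_one (prim_S b (cp_one n)) h1]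
    rfl
  · rw [raw_of h2, key2 1⁻¹ inv_one (prim_Z b (cp_one n)) h2]
    rfl

theorem na_sm_mono {a b : Id K} (h : a.m ≤ b.m) (L : Lat K) : (L.sm a).M ≤ (L.sm b).M :=
  Submodule.smul_mono_left h

theorem na_prim_add (hn : IsInt n) {L : Lat K} {v u : Fin 2 → K} (h : Prim n L v)
    (hu : u ∈ (L.sm n).M) : Prim n L (v + u) := by
  constructor
  · refine L.M.add_mem h.1 ?_
    have h1 := na_sm_mono ((isInt_iff n).1 hn) L hu
    rwa [sm_one] at h1
  · intro p hp hv
    apply h.2 p hp
    have h1 : u ∈ (L.sm (pI p)).M := na_sm_mono ((isInt_div n (pI p)).1 hp) L hu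
    have h2 := (L.sm (pI p)).M.sub_mem hv h1
    rwa [add_sub_cancel_right] at h2

theorem raw_form (hn : IsInt n) (hF : PForm n k μ om F) :
    N.LForm n k μ (omF n om) (raw F) where
  holo := by
    intro L v hv
    have h := (primN n L v).1 hv
    simp only [raw_of h]
    exact hF.holo _
  slash := by
    intro g hg z L v hv
    have h := (primN n L v).1 hv
    rw [raw_of h, raw_of (prim_mul h g), hF.slash g hg, of_mul h g]
  level := by
    intro L v u hv hu z
    have h := (primN n L v).1 hv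
    have h' := na_prim_add hn h hu
    rw [raw_of h, raw_of h']
    congr 1
    symm
    rw [of_eq]
    rwa [add_sub_cancel_left]
  scal := by
    intro a ha hc z L v hv hva
    have h := (primN n L v).1 hv
    have hc' := (copN ha).1 hc
    obtain ⟨h', hs⟩ := sc_of hn hc' h hva (by rw [sub_self]; exact Submodule.zero_mem _)
    rw [raw_of h, raw_of h', hF.scal a _ _ hs z]
    unfold omF
    rw [if_pos hc']
  bdd := by
    intro L v hv
    have h := (primN n L v).1 hv
    simp only [raw_of h]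
    exact hF.bdd _

theorem lform_smul {om : Id K → ℂ} {G : (Em K → ℍ) → Lat K → (Fin 2 → K) → ℂ}
    (h : N.LForm n k μ om G) (c : ℂ) : N.LForm n k μ om (fun z L v => c * G z L v) where
  holo := fun L v hv => (h.holo L v hv).const_mul c
  slash := by
    intro g hg z L v hv
    rw [h.slash g hg z L v hv]
    ring
  level := by
    intro L v u hv hu z
    rw [h.level L v u hv hu z]
  scal := by
    intro a ha hc z L v hv hva
    rw [h.scal a ha hc z L v hv hva]
    ring
  bdd := by
    intro L v hv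
    obtain ⟨C, hC⟩ := h.bdd L v hv
    refine ⟨‖c‖ * C, fun z => ?_⟩
    rw [norm_mul, mul_assoc]
    exact mul_le_mul_of_nonneg_left (hC z) (norm_nonneg c)


end Pool.Agent.HSG.LV
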