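import Pool.Agent.Lib_helper84.NE.Defs
import Pool.Agent.Lib_helper84.HSGF.GI1
import Pool.Agent.Lib_helper84.LVF.LA
import Pool.Agent.Lib_helper84.LVF.LB
import Pool.Agent.Lib_helper84.LVF.LC
import Pool.Agent.Lib_helper84.LVF.LE1
import Pool.Agent.Lib_helper84.LVF.LF
import Pool.Agent.Lib_helper84.LVF.LI2
import Pool.Agent.Lib_helper84.LVF.LM
import Pool.Agent.Lib_helper84.LVF.LO

/-! # NE, block NB: the central character, bounds for the eigenvalues -/

namespace Pool.Agent.HSG.LV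

open Complex MeasureTheory Filter Topology UpperHalfPlane NumberField IsDedekindDomain
open scoped nonZeroDivisors MatrixGroups ENNReal

variable {K : Type} [Field K] [NumberField K]

variable {n : Id K} {k : Em K → ℕ} {μ : Em K → ℝ} {om : Id K → ℂ} {lam : Pr K → ℂ}
  {F : (Em K → ℍ) → Pt n → ℂ}

theorem omF_one (hn : IsInt n) (h : PEig n k μ om lam F) : omF n om 1 = 1 := by
  obtain ⟨z, x, h0⟩ := h.ne
  unfold omF
  rw [if_pos (cp_one n)]
  have h1 := h.form.scal 1 x x (sc_one hn x) z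
  have h2 : (om 1 - 1) * F z x = 0 := by
    rw [_root_.sub_mul, one_mul, ← h1, sub_self]
  rcases mul_eq_zero.mp h2 with h3 | h3
  · exact sub_eq_zero.mp h3
  · exact absurd h3 h0

theorem omF_mul (hn : IsInt n) (h : PEig n k μ om lam F) (a b : Id K) (ha : IsInt a)
    (hb : IsInt b) : omF n om (a * b) = omF n om a * omF n om b := by
  unfold omF
  by_cases hab : Cp n a ∧ Cp n b
  · obtain ⟨hca, hcb⟩ := hab
    rw [if_pos hca, if_pos hcb, if_pos (cp_mul hca hcb)]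
    obtain ⟨z, x, h0⟩ := h.ne
    obtain ⟨y, hy, -⟩ := sc_exists hn hca x
    obtain ⟨u, hu, -⟩ := sc_exists hn hcb y
    have h1 := h.form.scal a x y hy z
    have h2 := h.form.scal b y u hu z
    have h3 := h.form.scal (a * b) x u (sc_mul hn hy hu) z
    have h4 : F z u ≠ 0 := by
      intro h5
      rw [h5, mul_zero] at h2
      rw [h2, mul_zero] at h1
      exact h0 h1
    apply mul_right_cancel₀ h4
    rw [← h3, h1, h2]
    ring
  · have h1 : ¬ Cp n (a * b) := fun hc => hab (cp_of_mul ha hb hc)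
    rw [if_neg h1]
    rcases not_and_or.mp hab with h2 | h2
    · rw [if_neg h2, zero_mul]
    · rw [if_neg h2, mul_zero]

theorem nb_not {p : Pr K} (hp : Dv p n) : ¬ Cp n (pI p) := by
  intro hc
  exact hc.2 p ((dv_pI p p).2 rfl) hp

theorem wP_norm (h : PEig n k μ om lam F) (p : Pr K) :
    (¬ Dv p n → ‖wP n om p‖ = 1) ∧ (Dv p n → wP n om p = 0) := by
  constructor
  · intro hp
    unfold wP omF
    rw [if_pos (cp_pI hp)]
    exact h.unit _ (cp_pI hp)
  · intro hp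
    unfold wP omF
    rw [if_neg (nb_not hp)]

theorem nb_sq (p : Pr K) : ((√(qP p : ℝ) : ℝ) : ℂ) ≠ 0 := by
  have h1 : 2 ≤ qP p := (pI_facts p).2.2.2
  have h2 : (0 : ℝ) < (qP p : ℝ) := by
    have : 0 < qP p := by omega
    exact_mod_cast this
  exact_mod_cast (Real.sqrt_pos.mpr h2).ne'

/-- the eigenvalue of the adjoint operator -/
theorem lam_conj (hn : IsInt n) (h : PEig n k μ om lam F) {p : Pr K} (hp : ¬ Dv p n) :
    lam p = wP n om p * starRingEnd ℂ (lam p) := by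
  obtain ⟨z, x, h0⟩ := h.ne
  have hw : wP n om p = om (pI p) := by
    unfold wP omF
    rw [if_pos (cp_pI hp)]
  have hw1 : ‖om (pI p)‖ = 1 := h.unit _ (cp_pI hp)
  have hw0 : om (pI p) ≠ 0 := by
    intro h1
    rw [h1, norm_zero] at hw1
    exact zero_ne_one hw1
  have h1 := ts_tp hn hp (f := F z) (w := (om (pI p))⁻¹) (fun a b hab => by
    rw [h.form.scal _ a b hab z, smul_eq_mul, inv_mul_cancel_left₀ hw0]) x
  rw [h.dn p z x, h.up p z x, smul_eq_mul] at h1
  have h2 : starRingEnd ℂ (lam p) = (om (pI p))⁻¹ * lam p := by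
    apply mul_left_cancel₀ (nb_sq p)
    apply mul_right_cancel₀ h0
    rw [h1]
    ring
  rw [hw, h2, mul_inv_cancel_left₀ hw0]

/-- the invariance of the normalised absolute value -/
theorem nb_inv (hF : PForm n k μ om F) (g : GL (Fin 2) K)
    (hg : ∀ w : Em K, 0 < w (g : Matrix (Fin 2) (Fin 2) K).det) (z : Em K → ℍ) (x : Pt n) :
    ‖F (g • z) x‖ * ∏ w, ((g • z) w).im ^ ((k w : ℝ) / 2) =
      ‖F z (x.mul g)‖ * ∏ w, (z w).im ^ ((k w : ℝ) / 2) := by
  rw [hF.slash g hg z x, norm_mul, norm_prod]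
  have hg1 : (g : Matrix (Fin 2) (Fin 2) K) 1 ≠ 0 := by
    intro h
    have h1 := hg
    have hd : (g : Matrix (Fin 2) (Fin 2) K).det ≠ 0 := by
      have := (Matrix.GeneralLinearGroup.det g).ne_zero
      exact this
    apply hd
    rw [Matrix.det_fin_two, h]
    simp
  have h1 : ∀ w : Em K, ‖lz (g 1) z w ^ k w *
        ((w (g : Matrix (Fin 2) (Fin 2) K).det : ℝ) : ℂ) ^
          (-((k w : ℂ) / 2) - μ w * Complex.I)‖ * ((g • z) w).im ^ ((k w : ℝ) / 2) =
      (z w).im ^ ((k w : ℝ) / 2) := by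
    intro w
    have hl : 0 < ‖lz (g 1) z w‖ := norm_pos_iff.mpr (lz_ne hg1 z w)
    have hd := hg w
    have hz := (z w).im_pos
    rw [norm_mul, norm_pow, norm_cpow_eq_rpow_re_of_pos hd, im_act g hg]
    have h2 : (-((k w : ℂ) / 2) - μ w * Complex.I).re = -((k w : ℝ) / 2) := by
      simp
    rw [h2, Real.div_rpow (mul_nonneg hd.le hz.le) (by positivity), Real.mul_rpow hd.le hz.le,
      Real.rpow_neg hd.le, ← Real.rpow_natCast (‖lz (g 1) z w‖) 2, ← Real.rpow_mul hl.le]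
    have h3 : ((2 : ℕ) : ℝ) * ((k w : ℝ) / 2) = (k w : ℝ) := by push_cast; ring
    rw [h3, Real.rpow_natCast]
    have h4 : w (g : Matrix (Fin 2) (Fin 2) K).det ^ ((k w : ℝ) / 2) ≠ 0 :=
      (Real.rpow_pos_of_pos hd _).ne'
    have h5 : ‖lz (g 1) z w‖ ^ k w ≠ 0 := pow_ne_zero _ hl.ne'
    field_simp
  calc _ = (∏ w, (‖lz (g 1) z w ^ k w *
        ((w (g : Matrix (Fin 2) (Fin 2) K).det : ℝ) : ℂ) ^
          (-((k w : ℂ) / 2) - μ w * Complex.I)‖ * ((g • z) w).im ^ ((k w : ℝ) / 2))) *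
          ‖F z (x.mul g)‖ := by
        rw [Finset.prod_mul_distrib]
        ring
    _ = _ := by
        rw [Finset.prod_congr rfl (fun w _ => h1 w)]
        ring

/-- every point is a translate of one of finitely many points -/
theorem nb_orb (hn : IsInt n) (x : Pt n) : ∃ (κ : NCl K) (g : GL (Fin 2) K),
    (∀ w : Em K, 0 < w (g : Matrix (Fin 2) (Fin 2) K).det) ∧
      x = (sS n (Quotient.out κ)).mul g := by
  obtain ⟨g1, h1⟩ := to_std hn x
  set κ : NCl K := (QuotientGroup.mk x.L.det : NCl K) with hκ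
  have h2 : (QuotientGroup.mk (Quotient.out κ) : NCl K) = QuotientGroup.mk x.L.det := by
    rw [← hκ]
    exact Quotient.out_eq κ
  rw [QuotientGroup.eq] at h2
  obtain ⟨t, ht, ht'⟩ := h2
  have h3 : x.L.det = prI t * Quotient.out κ := by
    rw [ht']
    rw [mul_comm, mul_inv_cancel_left]
  have h4 : (sS n (Quotient.out κ)).mul (dgm t) = sS n x.L.det := by
    rw [h3]
    exact ptS_dgm (cp_one n) t
  refine ⟨κ, dgm t * (g1 : GL (Fin 2) K), fun w => ?_, ?_⟩
  · rw [Units.val_mul, Matrix.det_mul]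
    have h5 : ((g1 : GL (Fin 2) K) : Matrix (Fin 2) (Fin 2) K).det = 1 := g1.2
    have h6 : ((dgm t : GL (Fin 2) K) : Matrix (Fin 2) (Fin 2) K).det = (t : K) := by
      show (!![(t : K), 0; 0, 1] : Matrix (Fin 2) (Fin 2) K).det = _
      simp [Matrix.det_fin_two]
    rw [h5, h6, mul_one]
    exact ht w
  · rw [pt_mul_mul, h4, ← h1, sact_eq, ← pt_mul_mul, ← map_mul, inv_mul_cancel, map_one,
      pt_mul_one]

theorem nb_bdd (hn : IsInt n) (hF : PForm n k μ om F) : ∃ C : ℝ, ∀ z x,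
    ‖F z x‖ * ∏ w, (z w).im ^ ((k w : ℝ) / 2) ≤ C := by
  have hfin : Finite (NCl K) := ncl_fin
  choose C hC using fun κ : NCl K => hF.bdd (sS n (Quotient.out κ))
  obtain ⟨C', hC'⟩ := (Set.finite_range C).bddAbove
  refine ⟨C', fun z x => ?_⟩
  obtain ⟨κ, g, hg, rfl⟩ := nb_orb hn x
  rw [← nb_inv hF g hg]
  exact (hC κ (g • z)).trans (hC' ⟨κ, rfl⟩)

theorem lam_bd (hn : IsInt n) (h : PEig n k μ om lam F) (p : Pr K) :
    ‖lam p‖ ≤ √(qP p : ℝ) + 1 / √(qP p : ℝ) ∧ (Dv p n → ‖lam p‖ ≤ √(qP p : ℝ)) := by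
  obtain ⟨C, hC⟩ := nb_bdd hn h.form
  obtain ⟨z, x, h0⟩ := h.ne
  have hP : 0 < ∏ w, (z w).im ^ ((k w : ℝ) / 2) :=
    Finset.prod_pos fun w _ => Real.rpow_pos_of_pos (z w).im_pos _
  exact lam_triv hn (f := F z) (C := C / ∏ w, (z w).im ^ ((k w : ℝ) / 2)) (fun y => by
    rw [le_div_iff₀ hP]
    exact hC z y) ⟨x, h0⟩ (fun y => h.up p z y)

end Pool.Agent.HSG.LV
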