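import Pool.Agent.Lib_helper84.NE.Defs
import Pool.Agent.Lib_helper84.HSGF.GL1
import Pool.Agent.Lib_helper84.HSGF.GI1
import Pool.Agent.Lib_helper84.LVF.LF

/-! # Newforms as eigenforms, block NC (ACT): the action of simple matrices -/

set_option autoImplicit false

namespace Pool.Agent.HSG.LV

open Complex MeasureTheory Filter Topology UpperHalfPlane NumberField IsDedekindDomain
open scoped nonZeroDivisors MatrixGroups ENNReal

variable {K : Type} [Field K] [NumberField K]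

variable {n : Id K} {k : Em K → ℕ} {μ : Em K → ℝ} {om : Id K → ℂ} {lam : Pr K → ℂ}
  {F : (Em K → ℍ) → Pt n → ℂ}

omit [NumberField K] in
theorem nc_det_sl (g : SL(2, K)) :
    ((g : GL (Fin 2) K) : Matrix (Fin 2) (Fin 2) K).det = 1 := g.det_coe

theorem nc_slash_sl (hF : PForm n k μ om F) (g : SL(2, K)) (z : Em K → ℍ) (x : Pt n) :
    F ((g : GL (Fin 2) K) • z) x = (∏ w, lz ((g : GL (Fin 2) K) 1) z w ^ k w) *
      F z (x.mul (g : GL (Fin 2) K)) := by
  have h := hF.slash (g : GL (Fin 2) K) (fun w => by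
    rw [nc_det_sl, map_one]; exact one_pos) z x
  rw [h, nc_det_sl]
  congr 1
  refine Finset.prod_congr rfl fun w _ => ?_
  rw [map_one, ofReal_one, one_cpow, mul_one]

theorem form_nm (hF : PForm n k μ om F) (β : K) (z : Em K → ℍ) (x : Pt n) :
    F z (x.mul (nm β : GL (Fin 2) K)) = F (trH (em β) z) x := by
  have h := nc_slash_sl hF (nm β) z x
  rw [gl1_nm_act, Finset.prod_congr rfl (fun w _ => by rw [gl1_nm_row, one_pow]),
    Finset.prod_const_one, one_mul] at h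
  exact h.symm

theorem form_wm (hF : PForm n k μ om F) (b : Id K) (z : Em K → ℍ) :
    F (wm K • z) (sS n b) = (∏ w, (z w : ℂ) ^ k w) * F z (sZ n b) := by
  have h := nc_slash_sl hF (wm K) z (sS n b)
  have h1 : (sS n b).mul (wm K : GL (Fin 2) K) = sZ n b := ptS_wm _
  rw [h1] at h
  have h2 : ∀ w : Em K, lz ((wm K : GL (Fin 2) K) 1) z w = (z w : ℂ) := by
    intro w
    simp [lz, wm]
  rw [Finset.prod_congr rfl (fun w _ => by rw [h2 w])] at h
  exact h

theorem nc_dgm (hF : PForm n k μ om F) {t : Kˣ} (ht : t ∈ Kp K) (z : Em K → ℍ) (x : Pt n) :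
    F (dgm t • z) x = (N.xk k μ (t : K))⁻¹ * F z (x.mul (dgm t)) := by
  have hd : ((dgm t : GL (Fin 2) K) : Matrix (Fin 2) (Fin 2) K).det = (t : K) := by
    rw [gl1_dgm_coe, Matrix.det_fin_two]
    simp
  have h := hF.slash (dgm t) (fun w => by rw [hd]; exact ht w) z x
  rw [h, hd]
  congr 1
  unfold N.xk
  rw [← Finset.prod_inv_distrib]
  refine Finset.prod_congr rfl fun w _ => ?_
  rw [gl1_dgm_row, one_pow, one_mul, ← Complex.cpow_neg]
  congr 1
  ring

theorem form_dgS (hF : PForm n k μ om F) {t : Kˣ} (ht : t ∈ Kp K) (b : Id K) (z : Em K → ℍ) :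
    F (dgm t • z) (sS n b) = (N.xk k μ (t : K))⁻¹ * F z (sS n (prI t * b)) := by
  rw [nc_dgm hF ht]
  have h1 : (sS n b).mul (dgm t) = sS n (prI t * b) := ptS_dgm _ _
  rw [h1]

/-- the scalar matrix -/
noncomputable def nc_sc (t : Kˣ) : GL (Fin 2) K :=
  Units.map ((Matrix.scalar (Fin 2) : K →+* Matrix (Fin 2) (Fin 2) K) : K →* _) t

omit [NumberField K] in
theorem nc_sc_coe (t : Kˣ) :
    ((nc_sc t : GL (Fin 2) K) : Matrix (Fin 2) (Fin 2) K) = Matrix.scalar (Fin 2) (t : K) := rfl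

omit [NumberField K] in
theorem nc_sc_act {t : Kˣ} (ht : t ∈ Kp K) (z : Em K → ℍ) : nc_sc t • z = z := by
  funext w
  show (Matrix.GeneralLinearGroup.map (n := Fin 2) w (nc_sc t)) • z w = z w
  ext1
  have hw : (0 : ℝ) < w (t : K) := ht w
  rw [UpperHalfPlane.coe_smul_of_det_pos]
  · have hne : ((w (t : K) : ℝ) : ℂ) ≠ 0 := ofReal_ne_zero.2 hw.ne'
    simp only [UpperHalfPlane.num, UpperHalfPlane.denom, Matrix.GeneralLinearGroup.map_apply,
      nc_sc_coe, Matrix.scalar_apply, Matrix.diagonal_apply]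
    simp
  · have : 0 < (w (t : K)) ^ 2 := pow_pos hw 2
    simp only [Matrix.GeneralLinearGroup.val_det_apply, Matrix.det_fin_two,
      Matrix.GeneralLinearGroup.map_apply, nc_sc_coe, Matrix.scalar_apply, Matrix.diagonal_apply]
    simpa [sq] using this

theorem nc_scal (hF : PForm n k μ om F) {t : Kˣ} (ht : t ∈ Kp K) (z : Em K → ℍ) (x : Pt n) :
    F z x = (∏ w : Em K, ((w (t : K) : ℝ) : ℂ) ^ (-(2 * μ w * Complex.I))) *
      F z (x.mul (nc_sc t)) := by
  have hd : ((nc_sc t : GL (Fin 2) K) : Matrix (Fin 2) (Fin 2) K).det = (t : K) * t := by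
    rw [nc_sc_coe, Matrix.det_fin_two]
    simp
  have h := hF.slash (nc_sc t) (fun w => by
    rw [hd, map_mul]; exact mul_pos (ht w) (ht w)) z x
  rw [nc_sc_act ht] at h
  rw [h, hd]
  congr 1
  refine Finset.prod_congr rfl fun w _ => ?_
  have hw : (0 : ℝ) < w (t : K) := ht w
  have hne : ((w (t : K) : ℝ) : ℂ) ≠ 0 := ofReal_ne_zero.2 hw.ne'
  have hlz : lz ((nc_sc t : GL (Fin 2) K) 1) z w = ((w (t : K) : ℝ) : ℂ) := by
    simp [lz, nc_sc_coe]
  rw [hlz, map_mul, ofReal_mul, Complex.mul_cpow_ofReal_nonneg hw.le hw.le,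
    ← Complex.cpow_natCast, ← Complex.cpow_add _ _ hne, ← Complex.cpow_add _ _ hne]
  congr 1
  ring

theorem form_dgZ (hF : PForm n k μ om F) {t : Kˣ} (ht : t ∈ Kp K) (b : Id K) (z : Em K → ℍ) :
    F (dgm t • z) (sZ n (prI t * b)) = (N.xk k (-μ) (t : K))⁻¹ * F z (sZ n b) := by
  rw [nc_dgm hF ht]
  have h1 : (sZ n (prI t * b)).mul (dgm t) = (sZ n b).mul (nc_sc t) :=
    ptZ_dgm _ _ (nc_sc_coe t)
  rw [h1, nc_scal hF ht z (sZ n b), ← mul_assoc]
  congr 1
  unfold N.xk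
  rw [← Finset.prod_inv_distrib, ← Finset.prod_inv_distrib, ← Finset.prod_mul_distrib]
  refine Finset.prod_congr rfl fun w _ => ?_
  have hw : (0 : ℝ) < w (t : K) := ht w
  have hne : ((w (t : K) : ℝ) : ℂ) ≠ 0 := ofReal_ne_zero.2 hw.ne'
  rw [← Complex.cpow_neg, ← Complex.cpow_neg, ← Complex.cpow_add _ _ hne]
  congr 1
  rw [Pi.neg_apply, ofReal_neg]
  ring

theorem xk_mul (k : Em K → ℕ) (μ : Em K → ℝ) {s t : Kˣ} (hs : s ∈ Kp K) (ht : t ∈ Kp K) :
    N.xk k μ ((s * t : Kˣ) : K) = N.xk k μ (s : K) * N.xk k μ (t : K) := by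
  unfold N.xk
  rw [← Finset.prod_mul_distrib]
  refine Finset.prod_congr rfl fun w _ => ?_
  rw [Units.val_mul, map_mul, ofReal_mul, Complex.mul_cpow_ofReal_nonneg (hs w).le (ht w).le]

theorem xk_norm (k : Em K → ℕ) (μ : Em K → ℝ) {t : Kˣ} (ht : t ∈ Kp K) :
    ‖N.xk k μ (t : K)‖ = ∏ w : Em K, (w (t : K)) ^ ((k w : ℝ) / 2) ∧ N.xk k μ (t : K) ≠ 0 ∧
      N.xk k (-μ) (t : K) = starRingEnd ℂ (N.xk k μ (t : K)) := by
  unfold N.xk
  refine ⟨?_, ?_, ?_⟩
  · rw [norm_prod]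
    refine Finset.prod_congr rfl fun w _ => ?_
    rw [Complex.norm_cpow_eq_rpow_re_of_pos (ht w)]
    congr 1
    simp
  · rw [Finset.prod_ne_zero_iff]
    intro w _
    have hne : ((w (t : K) : ℝ) : ℂ) ≠ 0 := ofReal_ne_zero.2 (ht w).ne'
    rw [Complex.cpow_def_of_ne_zero hne]
    exact Complex.exp_ne_zero _
  · rw [map_prod]
    refine Finset.prod_congr rfl fun w _ => ?_
    have hw : (0 : ℝ) < w (t : K) := ht w
    have harg : (((w (t : K) : ℝ) : ℂ)).arg ≠ Real.pi := by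
      rw [Complex.arg_ofReal_of_nonneg hw.le]
      exact Real.pi_pos.ne
    have h := Complex.cpow_conj (((w (t : K) : ℝ) : ℂ)) ((k w : ℂ) / 2 + μ w * Complex.I) harg
    rw [Complex.conj_ofReal] at h
    rw [← h]
    congr 1
    have h2 : (starRingEnd ℂ) 2 = 2 := map_ofNat (starRingEnd ℂ) 2
    simp [h2]

end Pool.Agent.HSG.LV
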