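import Pool.Agent.Lib_helper84.NE.Defs
import Pool.Agent.Lib_helper84.HSGF.GL1
import Pool.Agent.Lib_helper84.NEF.NC

/-! # NE, block ND: Fourier expansions -/

namespace Pool.Agent.HSG.LV

open Complex MeasureTheory Filter Topology UpperHalfPlane NumberField IsDedekindDomain
open scoped nonZeroDivisors MatrixGroups ENNReal

variable {K : Type} [Field K] [NumberField K]

variable {n : Id K} {k : Em K → ℕ} {μ : Em K → ℝ} {om : Id K → ℂ} {lam : Pr K → ℂ}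
  {F : (Em K → ℍ) → Pt n → ℂ}

section tr
variable [IsTotallyReal K]

omit [IsTotallyReal K] in
/-- the coefficients vanish outside the totally positive elements -/
theorem nd_pos (hk : ∀ w, 1 ≤ k w) {f : (Em K → ℍ) → ℂ} {C : ℝ}
    (hC : ∀ z : Em K → ℍ, ‖f z‖ * ∏ w, (z w).im ^ ((k w : ℝ) / 2) ≤ C) {a : K → ℂ}
    (ha : ∀ (z : Em K → ℍ) (B : ℝ), (∀ t : Em K → ℝ, ‖f (trH t z)‖ ≤ B) →
        ∀ ν, ‖a ν * eT ν z‖ ≤ B) (ν : K) {w₀ : Em K} (hν : w₀ ν ≤ 0) : a ν = 0 := by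
  classical
  have hk0 : (0 : ℝ) < (k w₀ : ℝ) / 2 := by
    have := hk w₀
    have : (1 : ℝ) ≤ k w₀ := by exact_mod_cast this
    linarith
  -- the points
  let zT : ℝ → (Em K → ℍ) := fun T w => if h : w = w₀ ∧ 0 < T then
    ⟨T * Complex.I, by simpa using h.2⟩ else UpperHalfPlane.I
  have hz0 : ∀ T, 0 < T → (zT T w₀).im = T := by
    intro T hT
    have : zT T w₀ = ⟨T * Complex.I, by simpa using hT⟩ := dif_pos ⟨rfl, hT⟩
    rw [this]
    simp [UpperHalfPlane.im]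
  have hz1 : ∀ T w, w ≠ w₀ → (zT T w).im = 1 := by
    intro T w hw
    have : zT T w = UpperHalfPlane.I := dif_neg (fun h => hw h.1)
    rw [this]
    simp
  have h1 : ∀ T, 0 < T → ∏ w, (zT T w).im ^ ((k w : ℝ) / 2) = T ^ ((k w₀ : ℝ) / 2) := by
    intro T hT
    rw [Finset.prod_eq_single w₀ (fun w _ hw => by rw [hz1 T w hw, Real.one_rpow]) (by simp)]
    rw [hz0 T hT]
  set c : ℝ := ∑ w ∈ Finset.univ.erase w₀, w ν with hc
  have h2 : ∀ T, 0 < T → ∑ w : Em K, w ν * (zT T w).im = w₀ ν * T + c := by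
    intro T hT
    rw [← Finset.add_sum_erase _ _ (Finset.mem_univ w₀), hz0 T hT]
    congr 1
    refine Finset.sum_congr rfl (fun w hw => ?_)
    rw [hz1 T w (Finset.ne_of_mem_erase hw), mul_one]
  have h3 : ∀ T, 0 < T →
      ‖a ν‖ * Real.exp (-(2 * Real.pi * c)) ≤ C * T ^ (-((k w₀ : ℝ) / 2)) := by
    intro T hT
    have h4 := ha (zT T) (C * T ^ (-((k w₀ : ℝ) / 2))) (fun t => by
      have h5 := hC (trH t (zT T))
      have h6 : ∏ w, ((trH t (zT T)) w).im ^ ((k w : ℝ) / 2) = T ^ ((k w₀ : ℝ) / 2) := by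
        rw [← h1 T hT]
        refine Finset.prod_congr rfl (fun w _ => ?_)
        simp [trH]
      rw [h6] at h5
      rw [Real.rpow_neg hT.le, ← div_eq_mul_inv, le_div_iff₀ (Real.rpow_pos_of_pos hT _)]
      exact h5) ν
    rw [norm_mul, gl1_eT_norm, h2 T hT] at h4
    refine le_trans ?_ h4
    refine mul_le_mul_of_nonneg_left (Real.exp_le_exp.mpr ?_) (norm_nonneg _)
    have h6 : w₀ ν * T ≤ 0 := mul_nonpos_of_nonpos_of_nonneg hν hT.le
    have := Real.pi_pos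
    nlinarith
  have h4 : Tendsto (fun T : ℝ => C * T ^ (-((k w₀ : ℝ) / 2))) atTop (𝓝 (C * 0)) :=
    (tendsto_rpow_neg_atTop hk0).const_mul C
  have h5 : ‖a ν‖ * Real.exp (-(2 * Real.pi * c)) ≤ C * 0 :=
    ge_of_tendsto h4 ((eventually_gt_atTop 0).mono (fun T hT => h3 T hT))
  rw [mul_zero] at h5
  have h6 := Real.exp_pos (-(2 * Real.pi * c))
  have h7 : ‖a ν‖ ≤ 0 := by
    by_contra h
    push Not at h
    nlinarith [mul_pos h h6]
  exact norm_le_zero_iff.mp h7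

omit [IsTotallyReal K] in
/-- the bound for the coefficients -/
theorem nd_bd {f : (Em K → ℍ) → ℂ} {C : ℝ}
    (hC : ∀ z : Em K → ℍ, ‖f z‖ * ∏ w, (z w).im ^ ((k w : ℝ) / 2) ≤ C) {a : K → ℂ}
    (ha : ∀ (z : Em K → ℍ) (B : ℝ), (∀ t : Em K → ℝ, ‖f (trH t z)‖ ≤ B) →
        ∀ ν, ‖a ν * eT ν z‖ ≤ B) (ν : K) (hν : ∀ w : Em K, 0 < w ν) :
    ‖a ν‖ ≤ (C * Real.exp (2 * Real.pi * Fintype.card (Em K))) *
      ∏ w : Em K, |w ν| ^ ((k w : ℝ) / 2) := by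
  classical
  let z1 : Em K → ℍ := fun w => ⟨((w ν)⁻¹ : ℝ) * Complex.I, by
    simpa using hν w⟩
  have hz1 : ∀ w, (z1 w).im = (w ν)⁻¹ := by
    intro w
    simp [z1, UpperHalfPlane.im]
  have hPpos : 0 < ∏ w : Em K, |w ν| ^ ((k w : ℝ) / 2) :=
    Finset.prod_pos fun w _ => Real.rpow_pos_of_pos (abs_pos.mpr (hν w).ne') _
  have h1 : ∀ t : Em K → ℝ, ∏ w, ((trH t z1) w).im ^ ((k w : ℝ) / 2) =
      (∏ w : Em K, |w ν| ^ ((k w : ℝ) / 2))⁻¹ := by
    intro t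
    rw [← Finset.prod_inv_distrib]
    refine Finset.prod_congr rfl (fun w _ => ?_)
    have h2 : ((trH t z1) w).im = (w ν)⁻¹ := by
      rw [← hz1 w]
      simp [trH]
    rw [h2, Real.inv_rpow (hν w).le, abs_of_pos (hν w)]
  have h3 := ha z1 (C * ∏ w : Em K, |w ν| ^ ((k w : ℝ) / 2)) (fun t => by
    have h4 := hC (trH t z1)
    rw [h1 t, ← div_eq_mul_inv, div_le_iff₀ hPpos] at h4
    exact h4) ν
  rw [norm_mul, gl1_eT_norm] at h3
  have h5 : ∑ w : Em K, w ν * (z1 w).im = Fintype.card (Em K) := by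
    have h6 : ∀ w ∈ (Finset.univ : Finset (Em K)), w ν * (z1 w).im = 1 := by
      intro w _
      rw [hz1, mul_inv_cancel₀ (hν w).ne']
    rw [Finset.sum_congr rfl h6, Finset.sum_const, Finset.card_univ, nsmul_eq_mul, mul_one]
  rw [h5, Real.exp_neg, ← div_eq_mul_inv, div_le_iff₀ (Real.exp_pos _)] at h3
  calc _ ≤ _ := h3
    _ = _ := by ring

theorem pt_fou (hn : IsInt n) (hk : ∀ w, 1 ≤ k w) (hF : PForm n k μ om F) {x : Pt n} {y : Id K}
    (hy : ∀ β ∈ y.m, x.mul (nm β : GL (Fin 2) K) = x) :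
    ∃ (c : K → ℂ) (B : ℝ),
      (∀ ν, c ν ≠ 0 → (∀ w : Em K, 0 < w ν) ∧ ν ∈ ((DD K)⁻¹ * y⁻¹).m) ∧
      (∀ ν, ‖c ν‖ ≤ B * ∏ w : Em K, |w ν| ^ ((k w : ℝ) / 2)) ∧
      ∀ z, HasSum (fun ν => c ν * eT ν z) (F z x) := by
  obtain ⟨C, hC⟩ := hF.bdd x
  have hC0 : 0 ≤ C := by
    refine le_trans ?_ (hC (fun _ => UpperHalfPlane.I))
    exact mul_nonneg (norm_nonneg _) (Finset.prod_nonneg fun w _ =>
      Real.rpow_nonneg (UpperHalfPlane.im_pos _).le _)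
  obtain ⟨a, h1, h2, h3⟩ := fou y (f := fun z => F z x) (hF.holo x) (fun β hβ z => by
    rw [← form_nm hF β z x, hy β hβ])
  have hpos : ∀ ν, a ν ≠ 0 → ∀ w : Em K, 0 < w ν := by
    intro ν hν w
    by_contra hw
    push Not at hw
    exact hν (nd_pos hk hC h3 ν hw)
  refine ⟨a, C * Real.exp (2 * Real.pi * Fintype.card (Em K)), fun ν hν => ⟨hpos ν hν, ?_⟩,
    fun ν => ?_, h2⟩
  · by_contra hcon
    exact hν (h1 ν hcon)
  · by_cases h0 : a ν = 0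
    · rw [h0, norm_zero]
      exact mul_nonneg (mul_nonneg hC0 (Real.exp_pos _).le) (Finset.prod_nonneg fun w _ =>
        Real.rpow_nonneg (abs_nonneg _) _)
    · exact nd_bd hC h3 ν (hpos ν h0)

end tr

end Pool.Agent.HSG.LV
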