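import Pool.Agent.Lib_helper84.NE.Defs
import Pool.Agent.Lib_helper84.HSGF.GA1
import Pool.Agent.Lib_helper84.HSGF.GA3
import Pool.Agent.Lib_helper84.HSGF.GK2
import Pool.Agent.Lib_helper84.HSGF.GL1
import Pool.Agent.Lib_helper84.LVF.LF
import Pool.Agent.Lib_helper84.LVF.LM
import Pool.Agent.Lib_helper84.NEF.NC
import Pool.Agent.Lib_helper84.NEF.ND

/-! # Newforms as eigenforms: block NE (CSS) -/

namespace Pool.Agent.HSG.LV

open Complex MeasureTheory Filter Topology UpperHalfPlane NumberField IsDedekindDomain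
open scoped nonZeroDivisors MatrixGroups ENNReal

variable {K : Type} [Field K] [NumberField K]

variable {n : Id K} {k : Em K → ℕ} {μ : Em K → ℝ} {om : Id K → ℂ} {lam : Pr K → ℂ}
  {F : (Em K → ℍ) → Pt n → ℂ}

section tr
variable [IsTotallyReal K]

theorem ne_id (b : Id K) {ξ : Kˣ} :
    IsInt (prI ξ * DD K / b) ↔ (ξ : K) ∈ ((DD K)⁻¹ * b).m := by
  have h4 : prI ξ * DD K / b = prI ξ / ((DD K)⁻¹ * b) := by
    rw [div_eq_mul_inv, div_eq_mul_inv, mul_inv_rev, inv_inv, mul_assoc, mul_comm (DD K)]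
  rw [h4, isInt_div]
  constructor
  · intro h
    apply h
    rw [← mul_one (prI ξ), mem_prI_mul, mem_m_one]
    exact ⟨1, by simp⟩
  · intro h y hy
    rw [← mul_one (prI ξ), mem_prI_mul, mem_m_one] at hy
    obtain ⟨r, hr⟩ := hy
    have h5 : y = r • (ξ : K) := by
      rw [Algebra.smul_def]
      show y = (r : K) * _
      rw [hr, mul_comm, ← mul_assoc, Units.mul_inv, one_mul]
    rw [h5]
    exact Submodule.smul_mem _ _ h

/-- the coefficients at one point -/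
structure ne_C (k : Em K → ℕ) (F : (Em K → ℍ) → Pt n → ℂ) (b : Id K) (c : K → ℂ) (B : ℝ) :
    Prop where
  supp : ∀ ν, c ν ≠ 0 → (∀ w : Em K, 0 < w ν) ∧ ν ∈ ((DD K)⁻¹ * b).m
  bd : ∀ ν, ‖c ν‖ ≤ B * ∏ w : Em K, |w ν| ^ ((k w : ℝ) / 2)
  sum : ∀ z, HasSum (fun ν => c ν * eT ν z) (F z (sS n b))

theorem ne_ex (hn : IsInt n) (hk : ∀ w, 1 ≤ k w) (hF : PForm n k μ om F) (b : Id K) :
    ∃ (c : K → ℂ) (B : ℝ), ne_C k F b c B := by
  obtain ⟨c, B, h1, h2, h3⟩ := pt_fou hn hk hF (x := sS n b) (y := b⁻¹) (fun β hβ => by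
    refine ptS_nm (cp_one n) ?_
    rwa [inv_one, one_div])
  rw [inv_inv] at h1
  exact ⟨c, B, h1, h2, h3⟩

/-- the coefficients of `b` and of `t b` -/
theorem ne_shift (hF : PForm n k μ om F) (b : Id K) {t : Kˣ} (ht : t ∈ Kp K) {c c' : K → ℂ}
    {B B' : ℝ} (hc : ne_C k F b c B) (hc' : ne_C k F (prI t * b) c' B') (ν : K) :
    c' (ν * t) = N.xk k μ (t : K) * c ν := by
  have hx := (xk_norm k μ ht).2.1
  have h1 : (fun ρ => c' ρ - N.xk k μ (t : K) * c (ρ * ((t⁻¹ : Kˣ) : K))) = 0 := by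
    refine fou_unique (prI t * b)⁻¹ (fun ρ hρ => ?_) (fun z => ?_)
    · rw [inv_inv] at hρ
      show c' ρ - N.xk k μ (t : K) * c (ρ * ((t⁻¹ : Kˣ) : K)) = 0
      have e1 : c' ρ = 0 := by
        by_contra h
        exact hρ (hc'.supp _ h).2
      have e2 : c (ρ * ((t⁻¹ : Kˣ) : K)) = 0 := by
        by_contra h
        have h2 := (hc.supp _ h).2
        apply hρ
        rw [mul_left_comm, mem_prI_mul, mul_comm _ ρ]
        exact h2
      rw [e1, e2, mul_zero, sub_zero]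
    · have h2 := hc'.sum z
      have h3 := hc.sum (dgm t • z)
      rw [form_dgS hF ht b z] at h3
      have h4 : HasSum (fun ρ => N.xk k μ (t : K) * (c (ρ * ((t⁻¹ : Kˣ) : K)) * eT ρ z))
          (F z (sS n (prI t * b))) := by
        have h5 := h3.mul_left (N.xk k μ (t : K))
        rw [← mul_assoc, mul_inv_cancel₀ hx, one_mul] at h5
        rw [← (Equiv.mulRight₀ (t : K) t.ne_zero).hasSum_iff]
        have h6 : ((fun ρ => N.xk k μ (t : K) * (c (ρ * ((t⁻¹ : Kˣ) : K)) * eT ρ z)) ∘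
            (Equiv.mulRight₀ (t : K) t.ne_zero)) =
            fun ν => N.xk k μ (t : K) * (c ν * eT ν (dgm t • z)) := by
          funext ρ
          simp [gl1_eT_dgm ht]
        rw [h6]
        exact h5
      have h5 := h2.sub h4
      rw [sub_self] at h5
      have h6 : (fun ρ => (c' ρ - N.xk k μ (t : K) * c (ρ * ((t⁻¹ : Kˣ) : K))) * eT ρ z) =
          fun ρ => c' ρ * eT ρ z - N.xk k μ (t : K) * (c (ρ * ((t⁻¹ : Kˣ) : K)) * eT ρ z) := by
        funext ρ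
        ring
      rw [h6]
      exact h5
  have h2 := congrFun h1 (ν * t)
  simpa [mul_assoc, sub_eq_zero] using h2

theorem ne_inj : Function.Injective (fun ξ : Kp K => ((ξ.1 : Kˣ) : K)) :=
  fun _ _ h => Subtype.ext (Units.ext h)

/-- totally positive elements are units -/
theorem ne_unit {ν : K} (h : ∀ w : Em K, 0 < w ν) : ∃ ξ : Kp K, ((ξ.1 : Kˣ) : K) = ν := by
  have h5 : ν ≠ 0 := by
    have h1 := card_em (K := K)
    have h2 := dg_pos (K := K)
    have h6 : 0 < Fintype.card (Em K) := by omega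
    obtain ⟨w⟩ := Fintype.card_pos_iff.mp h6
    rintro rfl
    have := h w
    simp at this
  exact ⟨⟨Units.mk0 ν h5, h⟩, rfl⟩

theorem coS_exists (hn : IsInt n) (hk : ∀ w, 1 ≤ k w) (hF : PForm n k μ om F) :
    ∃ A, CoS k μ F A := by
  classical
  choose c B hc using ne_ex hn hk hF
  -- the coefficients
  have h1 : ∀ (b : Id K) (ξ : Kp K), c b ((ξ.1 : Kˣ) : K) =
      N.xk k μ ((ξ.1 : Kˣ) : K) * c (prI (ξ.1)⁻¹ * b) 1 := by
    intro b ξ
    have e1 : prI ξ.1 * (prI (ξ.1)⁻¹ * b) = b := by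
      rw [← mul_assoc, ← map_mul, mul_inv_cancel, map_one, one_mul]
    have h2 := hc b
    rw [← e1] at h2
    have h3 := ne_shift hF (prI (ξ.1)⁻¹ * b) ξ.2 (hc (prI (ξ.1)⁻¹ * b)) h2 1
    rw [one_mul, e1] at h3
    exact h3
  set A : Id K → ℂ := fun m => if IsInt m then c (DD K / m) 1 else 0 with hA
  have h2 : ∀ (b : Id K) (ξ : Kp K), A (prI ξ.1 * DD K / b) * N.xk k μ ((ξ.1 : Kˣ) : K) =
      c b ((ξ.1 : Kˣ) : K) := by
    intro b ξ
    by_cases h : IsInt (prI ξ.1 * DD K / b)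
    · rw [h1]
      simp only [hA, if_pos h]
      rw [mul_comm]
      congr 2
      rw [map_inv, div_eq_mul_inv, div_eq_mul_inv, mul_inv_rev, mul_inv_rev, inv_inv,
        mul_comm (DD K), mul_assoc, mul_comm (DD K)⁻¹, mul_assoc, inv_mul_cancel, mul_one, mul_comm]
    · simp only [hA, if_neg h, zero_mul]
      by_contra h3
      rw [ne_id] at h
      exact h ((hc b).supp _ (Ne.symm h3)).2
  refine ⟨A, fun m hm => if_neg hm, ?_, ?_⟩
  · have : Finite (NCl K) := ncl_fin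
    let b : NCl K → Id K := fun κ => κ.out
    have hb : ∀ κ, (QuotientGroup.mk (b κ) : NCl K) = κ := fun κ => QuotientGroup.out_eq' κ
    obtain ⟨C, hC⟩ := (Set.finite_range (fun κ => B (b κ))).bddAbove
    refine ⟨max C 0, fun m => ?_⟩
    obtain ⟨κ, ⟨ν, hν, hm⟩, -⟩ := cls_all hb m
    have h3 := h2 (b κ) ⟨ν, hν⟩
    have h4 := (hc (b κ)).bd (ν : K)
    have h5 := (xk_norm k μ hν).1
    rw [← h3, norm_mul, hm, h5] at h4
    have h6 : ∏ w : Em K, |w (ν : K)| ^ ((k w : ℝ) / 2) =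
        ∏ w : Em K, (w (ν : K)) ^ ((k w : ℝ) / 2) :=
      Finset.prod_congr rfl (fun w _ => by rw [abs_of_pos (hν w)])
    rw [h6] at h4
    have h7 : 0 < ∏ w : Em K, (w (ν : K)) ^ ((k w : ℝ) / 2) :=
      Finset.prod_pos (fun w _ => Real.rpow_pos_of_pos (hν w) _)
    have h8 := le_of_mul_le_mul_right h4 h7
    exact h8.trans ((hC ⟨κ, rfl⟩).trans (le_max_left _ _))
  · intro b z
    simp_rw [h2]
    have h3 := (hc b).sum z
    rw [← ne_inj.hasSum_iff] at h3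
    · exact h3
    · intro ν hν
      by_cases h0 : c b ν = 0
      · rw [h0, zero_mul]
      · exfalso
        obtain ⟨ξ, hξ⟩ := ne_unit ((hc b).supp ν h0).1
        exact hν ⟨ξ, hξ⟩

theorem coS_uniq {A A' : Id K → ℂ} (hA : ∀ m, ¬ IsInt m → A m = 0)
    (hA' : ∀ m, ¬ IsInt m → A' m = 0)
    (h : ∀ (b : Id K) (z : Em K → ℍ), ∃ s : ℂ,
      HasSum (fun ξ : Kp K => A (prI ξ.1 * DD K / b) *
        N.xk k μ ((ξ.1 : Kˣ) : K) * eT ((ξ.1 : Kˣ) : K) z) s ∧
      HasSum (fun ξ : Kp K => A' (prI ξ.1 * DD K / b) *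
        N.xk k μ ((ξ.1 : Kˣ) : K) * eT ((ξ.1 : Kˣ) : K) z) s) : A = A' := by
  classical
  funext m
  set b : Id K := DD K / m with hb
  -- the difference as a function on the field
  let d : Kp K → ℂ := fun ξ => (A (prI ξ.1 * DD K / b) - A' (prI ξ.1 * DD K / b)) *
    N.xk k μ ((ξ.1 : Kˣ) : K)
  let e : K → ℂ := fun ν => if hν : ∃ ξ : Kp K, ((ξ.1 : Kˣ) : K) = ν then d hν.choose else 0
  have he : ∀ ξ : Kp K, e ((ξ.1 : Kˣ) : K) = d ξ := by
    intro ξ
    have hν : ∃ ξ' : Kp K, ((ξ'.1 : Kˣ) : K) = ((ξ.1 : Kˣ) : K) := ⟨ξ, rfl⟩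
    have h1 : e ((ξ.1 : Kˣ) : K) = d hν.choose := dif_pos hν
    rw [h1, ne_inj hν.choose_spec]
  have he0 : ∀ ν, ν ∉ Set.range (fun ξ : Kp K => ((ξ.1 : Kˣ) : K)) → e ν = 0 :=
    fun ν hν => dif_neg hν
  have h1 : e = 0 := by
    refine fou_unique b⁻¹ (fun ν hν => ?_) (fun z => ?_)
    · rw [inv_inv] at hν
      by_cases h2 : ν ∈ Set.range (fun ξ : Kp K => ((ξ.1 : Kˣ) : K))
      · obtain ⟨ξ, rfl⟩ := h2
        rw [he]
        have h3 : ¬ IsInt (prI ξ.1 * DD K / b) := fun h4 => hν ((ne_id b).1 h4)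
        show (A _ - A' _) * _ = 0
        rw [hA _ h3, hA' _ h3, sub_self, zero_mul]
      · exact he0 ν h2
    · rw [← ne_inj.hasSum_iff]
      · obtain ⟨s, h2, h3⟩ := h b z
        have h4 := h2.sub h3
        rw [sub_self] at h4
        have h5 : ((fun ν => e ν * eT ν z) ∘ fun ξ : Kp K => ((ξ.1 : Kˣ) : K)) =
            fun ξ : Kp K => A (prI ξ.1 * DD K / b) *
              N.xk k μ ((ξ.1 : Kˣ) : K) * eT ((ξ.1 : Kˣ) : K) z - A' (prI ξ.1 * DD K / b) *
              N.xk k μ ((ξ.1 : Kˣ) : K) * eT ((ξ.1 : Kˣ) : K) z := by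
          funext ξ
          show e ((ξ.1 : Kˣ) : K) * eT ((ξ.1 : Kˣ) : K) z = _
          rw [he]
          show (A _ - A' _) * _ * _ = _
          ring
        rw [h5]
        exact h4
      · intro ν hν
        rw [he0 ν hν, zero_mul]
  have h2 := congrFun h1 (((1 : Kp K).1 : Kˣ) : K)
  rw [he] at h2
  have h3 : prI (1 : Kp K).1 * DD K / b = m := by
    rw [hb]
    show prI (1 : Kˣ) * DD K / (DD K / m) = m
    rw [map_one, one_mul, div_div_cancel]
  have h4 : (A (prI (1 : Kp K).1 * DD K / b) - A' (prI (1 : Kp K).1 * DD K / b)) *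
    N.xk k μ (((1 : Kp K).1 : Kˣ) : K) = 0 := h2
  rw [h3] at h4
  have h5 := (xk_norm k μ (1 : Kp K).2).2.1
  exact sub_eq_zero.1 ((mul_eq_zero.1 h4).resolve_right h5)

end tr

end Pool.Agent.HSG.LV
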