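import Pool.Agent.Lib_helper84.NE.Defs
import Pool.Agent.Lib_helper84.HSGF.GG
import Pool.Agent.Lib_helper84.HSGF.GK2
import Pool.Agent.Lib_helper84.HSGF.GL1
import Pool.Agent.Lib_helper84.LVF.LF
import Pool.Agent.Lib_helper84.NEF.NC
import Pool.Agent.Lib_helper84.NEF.ND

/-! # Block NF (CSZ): the coefficients at the points `(O ⊕ b, (1,0))` -/

set_option linter.unusedSectionVars false

namespace Pool.Agent.HSG.LV

open Complex MeasureTheory Filter Topology UpperHalfPlane NumberField IsDedekindDomain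
open scoped nonZeroDivisors MatrixGroups ENNReal

variable {K : Type} [Field K] [NumberField K]

variable {n : Id K} {k : Em K → ℕ} {μ : Em K → ℝ} {om : Id K → ℂ} {lam : Pr K → ℂ}
  {F : (Em K → ℍ) → Pt n → ℂ}

/-- `x ∈ a` iff the ideal `(x)/a` is integral -/
theorem nf_mem (x : Kˣ) (a : Id K) : (x : K) ∈ a.m ↔ IsInt (prI x / a) := by
  rw [isInt_div]
  constructor
  · intro h y hy
    rw [← mul_one (prI x), mem_prI_mul, mem_m_one] at hy
    obtain ⟨r, hr⟩ := hy
    have h5 : y = r • (x : K) := by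
      rw [Algebra.smul_def]
      show y = (r : K) * _
      rw [hr, mul_comm, ← mul_assoc, Units.mul_inv, one_mul]
    rw [h5]
    exact Submodule.smul_mem _ _ h
  · intro h
    apply h
    rw [← mul_one (prI x), mem_prI_mul, mem_m_one]
    exact ⟨1, by simp⟩

theorem nf_mem' (x : Kˣ) (n b : Id K) :
    (x : K) ∈ ((DD K)⁻¹ * (n * b)⁻¹).m ↔ IsInt (prI x * (n * b * DD K)) := by
  rw [nf_mem]
  have : prI x / ((DD K)⁻¹ * (n * b)⁻¹) = prI x * (n * b * DD K) := by
    rw [← mul_inv_rev, div_inv_eq_mul]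
  rw [this]

theorem nf_dgm_inv (t : Kˣ) (z : Em K → ℍ) : dgm t • dgm t⁻¹ • z = z := by
  have h : dgm t * dgm t⁻¹ = 1 := by
    ext i j
    fin_cases i <;> fin_cases j <;> simp [dgm]
  rw [smul_smul, h, one_smul]

/-- the Fourier coefficients at one point -/
structure NfF (k : Em K → ℕ) (F : (Em K → ℍ) → Pt n → ℂ) (b : Id K) (c : K → ℂ) (B : ℝ) :
    Prop where
  supp : ∀ ν, c ν ≠ 0 → (∀ w : Em K, 0 < w ν) ∧ ν ∈ ((DD K)⁻¹ * (n * b)⁻¹).m
  bd : ∀ ν, ‖c ν‖ ≤ B * ∏ w : Em K, |w ν| ^ ((k w : ℝ) / 2)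
  sum : ∀ z, HasSum (fun ν => c ν * eT ν z) (F z (sZ n b))

section tr
variable [IsTotallyReal K]

theorem nf_ex (hn : IsInt n) (hk : ∀ w, 1 ≤ k w) (hF : PForm n k μ om F) (b : Id K) :
    ∃ (c : K → ℂ) (B : ℝ), NfF k F b c B := by
  obtain ⟨c, B, h1, h2, h3⟩ := pt_fou (x := sZ n b) (y := n * b) hn hk hF (fun β hβ => by
    refine ptZ_nm hn (cp_one n) ?_
    rwa [mul_one])
  exact ⟨c, B, h1, h2, h3⟩

theorem nf_shift (hF : PForm n k μ om F) (b : Id K) {t : Kˣ} (ht : t ∈ Kp K) {c c' : K → ℂ}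
    {B B' : ℝ} (hc : NfF k F b c B) (hc' : NfF k F (prI t * b) c' B') (ν : K) :
    c' ν = (N.xk k (-μ) (t : K))⁻¹ * c (ν * t) := by
  have h1 : (fun ν => c' ν - (N.xk k (-μ) (t : K))⁻¹ * c (ν * t)) = 0 := by
    refine fou_unique (n * (prI t * b)) (fun ν hν => ?_) (fun z => ?_)
    · show c' ν - (N.xk k (-μ) (t : K))⁻¹ * c (ν * t) = 0
      have h2 : c' ν = 0 := by
        by_contra h
        exact hν (hc'.supp ν h).2
      have h3 : c (ν * t) = 0 := by
        by_contra h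
        apply hν
        have h4 := (hc.supp _ h).2
        have h5 : (DD K)⁻¹ * (n * (prI t * b))⁻¹ = prI t⁻¹ * ((DD K)⁻¹ * (n * b)⁻¹) := by
          rw [map_inv, mul_left_comm n, mul_inv_rev (prI t) (n * b), mul_comm (n * b)⁻¹,
            mul_left_comm]
        rw [h5, mem_prI_mul, inv_inv]
        have h6 : ((t : Kˣ) : K) * ν = ν * t := mul_comm _ _
        rw [h6]
        exact h4
      rw [h2, h3, mul_zero, sub_zero]
    · have h2 := hc'.sum z
      have h3 := hc.sum (dgm t⁻¹ • z)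
      have h4 : F z (sZ n (prI t * b)) =
          (N.xk k (-μ) (t : K))⁻¹ * F (dgm t⁻¹ • z) (sZ n b) := by
        rw [← form_dgZ hF ht b (dgm t⁻¹ • z), nf_dgm_inv]
      have h5 := h3.mul_left (N.xk k (-μ) (t : K))⁻¹
      rw [← h4] at h5
      have h6 : HasSum (fun ν => (N.xk k (-μ) (t : K))⁻¹ * c (ν * t) * eT ν z)
          (F z (sZ n (prI t * b))) := by
        rw [← (Equiv.mulRight₀ ((t⁻¹ : Kˣ) : K) (t⁻¹).ne_zero).hasSum_iff]
        have h7 : ((fun ν => (N.xk k (-μ) (t : K))⁻¹ * c (ν * t) * eT ν z) ∘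
            (Equiv.mulRight₀ ((t⁻¹ : Kˣ) : K) (t⁻¹).ne_zero)) =
            fun ν => (N.xk k (-μ) (t : K))⁻¹ * (c ν * eT ν (dgm t⁻¹ • z)) := by
          funext ν
          rw [gl1_eT_dgm (inv_mem ht)]
          simp [mul_assoc]
        rw [h7]
        exact h5
      have h8 := h2.sub h6
      rw [sub_self] at h8
      have h9 : (fun ν => (c' ν - (N.xk k (-μ) (t : K))⁻¹ * c (ν * t)) * eT ν z) =
          fun ν => c' ν * eT ν z - (N.xk k (-μ) (t : K))⁻¹ * c (ν * t) * eT ν z := by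
        funext ν
        ring
      rw [h9]
      exact h8
  have h2 := congrFun h1 ν
  exact sub_eq_zero.1 h2

theorem nf_em_ne : Nonempty (Em K) := by
  have h1 := card_em (K := K)
  have h2 := dg_pos (K := K)
  have h6 : 0 < Fintype.card (Em K) := by omega
  exact Fintype.card_pos_iff.mp h6

/-- sums over `K` supported on the totally positive elements -/
theorem nf_sum {a : K → ℂ} {s : ℂ} (ha : ∀ ν, a ν ≠ 0 → ∀ w : Em K, 0 < w ν) :
    HasSum (fun ξ : Kp K => a ((ξ.1 : Kˣ) : K)) s ↔ HasSum a s := by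
  have h4 : Function.Injective (fun ν : Kp K => ((ν.1 : Kˣ) : K)) :=
    fun x y h => Subtype.ext (Units.ext h)
  rw [← h4.hasSum_iff (f := a)]
  · rfl
  · intro ν hν
    by_contra h
    have h0 := ha ν h
    have h5 : ν ≠ 0 := by
      obtain ⟨w⟩ := nf_em_ne (K := K)
      rintro rfl
      have := h0 w
      simp at this
    exact hν ⟨⟨Units.mk0 ν h5, h0⟩, rfl⟩

theorem coZ_exists (hn : IsInt n) (hk : ∀ w, 1 ≤ k w) (hF : PForm n k μ om F) :
    ∃ B, CoZ k μ F B := by
  classical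
  choose c B hc using nf_ex hn hk hF
  -- the shift
  have h1 : ∀ (b : Id K) (t : Kˣ), t ∈ Kp K →
      c (prI t * b) 1 = (N.xk k (-μ) (t : K))⁻¹ * c b (t : K) := by
    intro b t ht
    have := nf_shift hF b ht (hc b) (hc (prI t * b)) 1
    rwa [one_mul] at this
  set A : Id K → ℂ := fun m => if IsInt m then c (m / (n * DD K)) 1 else 0 with hA
  have h2 : ∀ (b : Id K) (ξ : Kp K), A (prI ξ.1 * (n * b * DD K)) *
      N.xk k (-μ) ((ξ.1 : Kˣ) : K) = c b ((ξ.1 : Kˣ) : K) := by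
    intro b ξ
    by_cases h : IsInt (prI ξ.1 * (n * b * DD K))
    · simp only [hA, if_pos h]
      have h3 : prI ξ.1 * (n * b * DD K) / (n * DD K) = prI ξ.1 * b := by
        rw [mul_right_comm n b, mul_left_comm, mul_div_assoc, mul_div_cancel]
      rw [h3, h1 b ξ.1 ξ.2]
      have h4 := (xk_norm k (-μ) ξ.2).2.1
      field_simp
    · simp only [hA, if_neg h, zero_mul]
      by_contra h5
      apply h
      rw [← nf_mem']
      exact ((hc b).supp _ (fun h6 => h5 h6.symm)).2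
  have hfin := ncl_finite (K := K)
  obtain ⟨C, hC⟩ := Finite.exists_le (fun κ : NCl K => B κ.out)
  refine ⟨A, fun m hm => if_neg hm, ⟨|C|, fun m => ?_⟩, fun b z => ?_⟩
  · by_cases h : IsInt m
    · simp only [hA, if_pos h]
      set e : Id K := m / (n * DD K) with he
      set κ : NCl K := QuotientGroup.mk e with hκ
      have h3 : (QuotientGroup.mk κ.out : NCl K) = QuotientGroup.mk e := by
        rw [QuotientGroup.out_eq']
      rw [QuotientGroup.eq, pp_iff] at h3
      obtain ⟨t, ht, h4⟩ := h3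
      have h5 : e = prI t * κ.out := by
        rw [h4, mul_comm, mul_inv_cancel_left]
      rw [h5, h1 _ t ht, norm_mul, norm_inv]
      have h6 := (hc κ.out).bd (t : K)
      have h7 := (xk_norm k (-μ) ht).1
      have h8 : ∏ w : Em K, |w (t : K)| ^ ((k w : ℝ) / 2) = ‖N.xk k (-μ) (t : K)‖ := by
        rw [h7]
        refine Finset.prod_congr rfl fun w _ => ?_
        rw [abs_of_pos (ht w)]
      rw [h8] at h6
      have h9 : 0 < ‖N.xk k (-μ) (t : K)‖ := norm_pos_iff.2 (xk_norm k (-μ) ht).2.1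
      calc ‖N.xk k (-μ) (t : K)‖⁻¹ * ‖c κ.out (t : K)‖
          ≤ ‖N.xk k (-μ) (t : K)‖⁻¹ * (B κ.out * ‖N.xk k (-μ) (t : K)‖) := by gcongr
        _ = B κ.out := by field_simp
        _ ≤ C := hC κ
        _ ≤ |C| := le_abs_self C
    · simp only [hA, if_neg h, norm_zero]
      exact abs_nonneg C
  · simp_rw [h2]
    have h3 := (hc b).sum z
    rw [← nf_sum (fun ν hν => ((hc b).supp ν (left_ne_zero_of_mul hν)).1)] at h3
    exact h3

theorem coZ_uniq {B B' : Id K → ℂ} (hB : ∀ m, ¬ IsInt m → B m = 0)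
    (hB' : ∀ m, ¬ IsInt m → B' m = 0)
    (h : ∀ (b : Id K) (z : Em K → ℍ), ∃ s : ℂ,
      HasSum (fun ξ : Kp K => B (prI ξ.1 * (n * b * DD K)) *
        N.xk k μ ((ξ.1 : Kˣ) : K) * eT ((ξ.1 : Kˣ) : K) z) s ∧
      HasSum (fun ξ : Kp K => B' (prI ξ.1 * (n * b * DD K)) *
        N.xk k μ ((ξ.1 : Kˣ) : K) * eT ((ξ.1 : Kˣ) : K) z) s) : B = B' := by
  classical
  funext m
  by_cases hm : IsInt m
  · set b : Id K := m / (n * DD K) with hb
    -- the difference of the coefficients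
    set a : K → ℂ := fun ν => if h : ∃ ξ : Kp K, ((ξ.1 : Kˣ) : K) = ν then
      (B (prI h.choose.1 * (n * b * DD K)) - B' (prI h.choose.1 * (n * b * DD K))) *
        N.xk k μ ν else 0 with ha
    have h4 : Function.Injective (fun ν : Kp K => ((ν.1 : Kˣ) : K)) :=
      fun x y h => Subtype.ext (Units.ext h)
    have h1 : ∀ ξ : Kp K, a ((ξ.1 : Kˣ) : K) =
        (B (prI ξ.1 * (n * b * DD K)) - B' (prI ξ.1 * (n * b * DD K))) *
          N.xk k μ ((ξ.1 : Kˣ) : K) := by
      intro ξ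
      have hex : ∃ ξ' : Kp K, ((ξ'.1 : Kˣ) : K) = ((ξ.1 : Kˣ) : K) := ⟨ξ, rfl⟩
      have h2 : hex.choose = ξ := h4 hex.choose_spec
      simp only [ha, dif_pos hex, h2]
    have h0 : ∀ ν, a ν ≠ 0 → ∃ ξ : Kp K, ((ξ.1 : Kˣ) : K) = ν := by
      intro ν hν
      by_contra h5
      exact hν (by simp only [ha, dif_neg h5])
    have h5 : a = 0 := by
      refine fou_unique (n * b) (fun ν hν => ?_) (fun z => ?_)
      · by_contra h6
        obtain ⟨ξ, rfl⟩ := h0 ν h6
        rw [nf_mem'] at hν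
        apply h6
        rw [h1, hB _ hν, hB' _ hν, sub_zero, zero_mul]
      · obtain ⟨s, hs, hs'⟩ := h b z
        have h6 := hs.sub hs'
        rw [sub_self] at h6
        rw [← nf_sum (a := fun ν => a ν * eT ν z) (fun ν hν w => by
          obtain ⟨ξ, rfl⟩ := h0 ν (left_ne_zero_of_mul hν)
          exact ξ.2 w)]
        refine h6.congr_fun ?_
        intro ξ
        rw [h1]
        ring
    have h6 := h1 1
    rw [h5] at h6
    have h7 : prI ((1 : Kp K).1) * (n * b * DD K) = m := by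
      rw [hb]
      show prI (1 : Kˣ) * _ = m
      rw [map_one, one_mul, mul_right_comm, mul_div_cancel]
    rw [h7] at h6
    have h8 := (xk_norm k μ (1 : Kp K).2).2.1
    have h9 : (B m - B' m) * N.xk k μ (((1 : Kp K).1 : Kˣ) : K) = 0 := h6.symm
    rcases mul_eq_zero.1 h9 with h10 | h10
    · exact sub_eq_zero.1 h10
    · exact absurd h10 h8
  · rw [hB m hm, hB' m hm]

end tr


end Pool.Agent.HSG.LV
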