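import Pool.Agent.Lib_helper84.NE.Defs
import Pool.Agent.Lib_helper84.HSGF.GM
import Pool.Agent.Lib_helper84.LVF.LA
import Pool.Agent.Lib_helper84.LVF.LF
import Pool.Agent.Lib_helper84.LVF.LG
import Pool.Agent.Lib_helper84.NEF.NC
import Pool.Agent.Lib_helper84.NEF.NE

/-! # Newforms as eigenforms, block NG (HCS): Hecke operators and coefficients at the points
`(b ⊕ O, (0,1))` -/

set_option autoImplicit false

namespace Pool.Agent.HSG.LV

open Complex MeasureTheory Filter Topology UpperHalfPlane NumberField IsDedekindDomain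
open scoped nonZeroDivisors MatrixGroups ENNReal

variable {K : Type} [Field K] [NumberField K]

variable {n : Id K} {k : Em K → ℕ} {μ : Em K → ℝ} {om : Id K → ℂ} {lam : Pr K → ℂ}
  {F : (Em K → ℍ) → Pt n → ℂ}

theorem ng_tp (hn : IsInt n) (hF : PForm n k μ om F) (p : Pr K) (b : Id K) {S : Finset K}
    (hS : IsRepQ b⁻¹ (pI p * b⁻¹) S) (z : Em K → ℍ) :
    Tp p (F z) (sS n b) = wP n om p * F z (sS n (pI p * b)) +
      ∑ β ∈ S, F (trH (em β) z) (sS n (b / pI p)) := by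
  classical
  have hnm : ∀ β ∈ S, F z ((sS n (b / pI p)).mul (nm β : GL (Fin 2) K)) =
      F (trH (em β) z) (sS n (b / pI p)) := fun β _ => form_nm hF β z _
  by_cases hp : Dv p n
  · have hw : wP n om p = 0 := by
      unfold wP omF
      rw [if_neg]
      intro hc
      exact hc.2 p ((dv_pI p p).2 rfl) hp
    rw [tp_S_dv hn hp b hS (F z), hw, zero_mul, zero_add]
    exact Finset.sum_congr rfl hnm
  · have hw : wP n om p = om (pI p) := by
      unfold wP omF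
      rw [if_pos (cp_pI hp)]
    rw [tp_S hn hp b hS (F z), hF.scal (pI p) _ _ (ptS_sc hn (cp_pI hp)).1 z, hw]
    congr 1
    exact Finset.sum_congr rfl hnm

open Classical in
/-- the coefficients of the image under a Hecke operator -/
noncomputable def ng_A (n : Id K) (om : Id K → ℂ) (A : Id K → ℂ) (p : Pr K) (m : Id K) : ℂ :=
  if IsInt m then wP n om p * A (m / pI p) + (qP p : ℂ) * A (pI p * m) else 0

section tr
variable [IsTotallyReal K]

theorem ng_exp (hn : IsInt n) (hF : PForm n k μ om F) {A : Id K → ℂ} (hA : CoS k μ F A)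
    (p : Pr K) (b : Id K) (z : Em K → ℍ) :
    HasSum (fun ξ : Kp K => ng_A n om A p (prI ξ.1 * DD K / b) *
        N.xk k μ ((ξ.1 : Kˣ) : K) * eT ((ξ.1 : Kˣ) : K) z) (Tp p (F z) (sS n b)) := by
  classical
  have hle : Id.m (HS.frP p * b⁻¹) ≤ Id.m b⁻¹ := by
    rw [← isInt_div, mul_div_assoc, div_self', mul_one]
    exact gm_fr p
  obtain ⟨S, hS⟩ := repq_exists hle
  have h1 := (hA.exp (pI p * b) z).mul_left (wP n om p)
  have h2 : ∀ β ∈ S, HasSum (fun ξ : Kp K => A (prI ξ.1 * DD K / (b / pI p)) *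
      N.xk k μ ((ξ.1 : Kˣ) : K) * eT ((ξ.1 : Kˣ) : K) (trH (em β) z))
      (F (trH (em β) z) (sS n (b / pI p))) := fun β _ => hA.exp (b / pI p) (trH (em β) z)
  have h3 := h1.add (hasSum_sum h2)
  have h5 : (fun ξ : Kp K => ng_A n om A p (prI ξ.1 * DD K / b) *
        N.xk k μ ((ξ.1 : Kˣ) : K) * eT ((ξ.1 : Kˣ) : K) z) =
      fun ξ : Kp K => wP n om p * (A (prI ξ.1 * DD K / (pI p * b)) *
        N.xk k μ ((ξ.1 : Kˣ) : K) * eT ((ξ.1 : Kˣ) : K) z) +
        ∑ β ∈ S, A (prI ξ.1 * DD K / (b / pI p)) *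
      N.xk k μ ((ξ.1 : Kˣ) : K) * eT ((ξ.1 : Kˣ) : K) (trH (em β) z) := by
    funext ν
    obtain ⟨M, hM⟩ : ∃ M : Id K, M = prI ν.1 * DD K / b := ⟨_, rfl⟩
    have e1 : prI ν.1 * DD K / (pI p * b) = M / HS.frP p := by
      rw [hM, div_div, mul_comm b]
    have e2 : prI ν.1 * DD K / (b / pI p) = M * HS.frP p := by
      rw [hM, div_div_eq_mul_div, div_mul_eq_mul_div]
    have e3 : ((ν.1 : Kˣ) : K) ∈ Id.m ((DD K)⁻¹ * (b⁻¹)⁻¹) ↔ IsInt M := by
      rw [gm_mem, hM]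
      have : prI ν.1 * ((DD K)⁻¹ * (b⁻¹)⁻¹)⁻¹ = prI ν.1 * DD K / b := by
        rw [mul_inv, inv_inv, inv_inv, div_eq_mul_inv, mul_assoc]
      rw [this]
    have e4 : ((ν.1 : Kˣ) : K) ∈ Id.m ((DD K)⁻¹ * (HS.frP p * b⁻¹)⁻¹) ↔ IsInt (M * HS.frP p) := by
      rw [gm_mem, hM]
      have : prI ν.1 * ((DD K)⁻¹ * (HS.frP p * b⁻¹)⁻¹)⁻¹ = prI ν.1 * DD K / b * HS.frP p := by
        rw [mul_inv, inv_inv, inv_inv, mul_comm (HS.frP p), ← mul_assoc, ← mul_assoc,
          div_eq_mul_inv]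
      rw [this]
    rw [← hM, e1, e2]
    have e5 : ∑ β ∈ S, A (M * HS.frP p) *
        N.xk k μ ((ν.1 : Kˣ) : K) * eT ((ν.1 : Kˣ) : K) (trH (em β) z) =
        A (M * HS.frP p) * N.xk k μ ((ν.1 : Kˣ) : K) * eT ((ν.1 : Kˣ) : K) z *
          ∑ β ∈ S, cexp (2 * Real.pi * Complex.I *
            ((∑ w : Em K, w (((ν.1 : Kˣ) : K) * β) : ℝ) : ℂ)) := by
      rw [Finset.mul_sum]
      refine Finset.sum_congr rfl fun β _ => ?_
      rw [gm_eT]
      ring
    rw [e5]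
    by_cases hMi : IsInt M
    · have hMp : IsInt (M * HS.frP p) := isInt_mul hMi (gm_fr p)
      have h6 := (char_sum hle hS (e4.2 hMp)).1 (e3.2 hMi)
      rw [Finset.sum_congr rfl h6, Finset.sum_const, nsmul_eq_mul, mul_one]
      have h7 : ((S.card : ℕ) : ℂ) = (qP p : ℂ) := by
        have h8 := repq_card hle hS
        rw [nI_mul, mul_div_cancel_right₀ _ (nI_pos _).ne', gm_q] at h8
        exact_mod_cast h8
      rw [h7, ng_A, if_pos hMi, mul_comm (pI p) M]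
      ring
    · rw [ng_A, if_neg hMi, hA.int (M / HS.frP p) (fun h => hMi (gm_div_int p h))]
      by_cases hMp : IsInt (M * HS.frP p)
      · rw [(char_sum hle hS (e4.2 hMp)).2 (fun h => hMi (e3.1 h))]
        ring
      · rw [hA.int _ hMp]
        ring
  rw [ng_tp hn hF p b hS z, h5]
  exact h3

theorem hec_S (hn : IsInt n) (h : PEig n k μ om lam F) {A : Id K → ℂ} (hA : CoS k μ F A)
    (p : Pr K) (m : Id K) (hm : IsInt m) : (qP p : ℂ) * A (pI p * m) +
      wP n om p * A (m / pI p) = ((√(qP p : ℝ) : ℝ) : ℂ) * lam p * A m := by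
  have hu : ng_A n om A p = fun m => ((√(qP p : ℝ) : ℝ) : ℂ) * lam p * A m := by
    apply coS_uniq (k := k) (μ := μ)
    · intro m hm
      rw [ng_A, if_neg hm]
    · intro m hm
      show _ * A m = 0
      rw [hA.int m hm, mul_zero]
    · intro b z
      refine ⟨Tp p (F z) (sS n b), ng_exp hn h.form hA p b z, ?_⟩
      rw [h.up p z (sS n b)]
      have h1 := (hA.exp b z).mul_left (((√(qP p : ℝ) : ℝ) : ℂ) * lam p)
      have h2 : (fun ξ : Kp K => ((√(qP p : ℝ) : ℝ) : ℂ) * lam p * A (prI ξ.1 * DD K / b) *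
          N.xk k μ ((ξ.1 : Kˣ) : K) * eT ((ξ.1 : Kˣ) : K) z) =
          fun ξ : Kp K => ((√(qP p : ℝ) : ℝ) : ℂ) * lam p * (A (prI ξ.1 * DD K / b) *
          N.xk k μ ((ξ.1 : Kˣ) : K) * eT ((ξ.1 : Kˣ) : K) z) := by
        funext ξ
        ring
      rw [h2]
      exact h1
  have h3 := congrFun hu m
  rw [ng_A, if_pos hm] at h3
  rw [← h3]
  ring

end tr

end Pool.Agent.HSG.LV
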