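import Pool.Agent.Lib_helper84.NE.Defs
import Pool.Agent.Lib_helper84.HSGF.GA1
import Pool.Agent.Lib_helper84.HSGF.GA3
import Pool.Agent.Lib_helper84.HSGF.GD1
import Pool.Agent.Lib_helper84.HSGF.GD2
import Pool.Agent.Lib_helper84.LVF.LA
import Pool.Agent.Lib_helper84.LVF.LF
import Pool.Agent.Lib_helper84.LVF.LH
import Pool.Agent.Lib_helper84.NEF.NC
import Pool.Agent.Lib_helper84.NEF.NF

/-! # Block NH (HCZ): Hecke operators and coefficients at `(O ⊕ b, (1,0))` -/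

namespace Pool.Agent.HSG.LV

open Complex MeasureTheory Filter Topology UpperHalfPlane NumberField IsDedekindDomain
open scoped nonZeroDivisors MatrixGroups ENNReal

variable {K : Type} [Field K] [NumberField K]

variable {n : Id K} {k : Em K → ℕ} {μ : Em K → ℝ} {om : Id K → ℂ} {lam : Pr K → ℂ}
  {F : (Em K → ℍ) → Pt n → ℂ}

/-! ### Ideals -/

theorem nh_one_mem (c : Id K) : (1 : K) ∈ c.m ↔ IsInt c⁻¹ := by
  have h : IsInt c⁻¹ ↔ (1 : Id K).m ≤ c.m := by
    rw [← isInt_div, one_div]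
  rw [h]
  constructor
  · intro h1 x hx
    obtain ⟨y, hy⟩ := (mem_m_one x).1 hx
    have h2 := c.m.smul_mem y h1
    rw [← hy]
    have h3 : y • (1 : K) = (y : K) := by
      rw [Algebra.smul_def, mul_one]
    rwa [h3] at h2
  · intro h1
    exact h1 ((mem_m_one 1).2 ⟨1, by simp⟩)

theorem nh_mem (x : Kˣ) (a : Id K) : (x : K) ∈ a.m ↔ IsInt (prI x * a⁻¹) := by
  have h1 := mem_prI_mul x⁻¹ a 1
  rw [inv_inv, mul_one] at h1
  rw [← h1, nh_one_mem, mul_inv, map_inv, inv_inv]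

theorem nh_fr (p : Pr K) : IsInt (pI p) := (pI_facts p).2.1

theorem nh_q (p : Pr K) : nI (pI p) = qP p := (pI_facts p).2.2.1

theorem nh_div_int {a : Id K} (p : Pr K) (h : IsInt (a / pI p)) : IsInt a := by
  have := isInt_mul h (nh_fr p)
  rwa [div_mul_cancel] at this

theorem nh_eT (ν β : K) (z : Em K → ℍ) : eT ν (trH (em β) z) =
    cexp (2 * Real.pi * Complex.I * ((∑ w : Em K, w (ν * β) : ℝ) : ℂ)) * eT ν z := by
  unfold eT
  rw [← Complex.exp_add]
  congr 1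
  have h : ∀ w : Em K, ((trH (em β) z w : ℍ) : ℂ) = ((w β : ℝ) : ℂ) + (z w : ℂ) := by
    intro w
    show ((w β +ᵥ z w : ℍ) : ℂ) = _
    rw [coe_vadd]
  simp only [h]
  rw [← mul_add]
  congr 1
  push_cast
  rw [← Finset.sum_add_distrib]
  refine Finset.sum_congr rfl fun w _ => ?_
  rw [map_mul]
  push_cast
  ring

/-- the value of the character at a prime which does not divide the level -/
theorem nh_wP {p : Pr K} (hp : ¬ Dv p n) : wP n om p = om (pI p) := by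
  unfold wP omF
  rw [if_pos (cp_pI hp)]

section tr
variable [IsTotallyReal K]

open Classical in
/-- the expansion of the sum over the representatives -/
theorem nh_sum {B : Id K → ℂ} (hB : CoZ k μ F B) (p : Pr K) (b : Id K)
    (z : Em K → ℍ) {S : Finset K} (hS : IsRepQ (n * b) (pI p * (n * b)) S) :
    HasSum (fun ξ : Kp K => (if IsInt (prI ξ.1 * (n * b * DD K)) then
        (qP p : ℂ) * B (pI p * (prI ξ.1 * (n * b * DD K))) else 0) *
        N.xk k (-μ) ((ξ.1 : Kˣ) : K) * eT ((ξ.1 : Kˣ) : K) z)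
      (∑ β ∈ S, F (trH (em β) z) (sZ n (pI p * b))) := by
  have hle : Id.m (pI p * (n * b)) ≤ Id.m (n * b) := by
    rw [← isInt_div, mul_div_assoc, div_self', mul_one]
    exact nh_fr p
  have h1 : HasSum (fun ξ : Kp K => ∑ β ∈ S, B (prI ξ.1 * (n * (pI p * b) * DD K)) *
      N.xk k (-μ) ((ξ.1 : Kˣ) : K) * eT ((ξ.1 : Kˣ) : K) (trH (em β) z))
      (∑ β ∈ S, F (trH (em β) z) (sZ n (pI p * b))) :=
    hasSum_sum fun β _ => hB.exp (pI p * b) (trH (em β) z)
  have h2 : (fun ξ : Kp K => (if IsInt (prI ξ.1 * (n * b * DD K)) then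
        (qP p : ℂ) * B (pI p * (prI ξ.1 * (n * b * DD K))) else 0) *
        N.xk k (-μ) ((ξ.1 : Kˣ) : K) * eT ((ξ.1 : Kˣ) : K) z) =
      fun ξ : Kp K => ∑ β ∈ S, B (prI ξ.1 * (n * (pI p * b) * DD K)) *
        N.xk k (-μ) ((ξ.1 : Kˣ) : K) * eT ((ξ.1 : Kˣ) : K) (trH (em β) z) := by
    funext ξ
    obtain ⟨M, hM⟩ : ∃ M : Id K, M = prI ξ.1 * (n * b * DD K) := ⟨_, rfl⟩
    have e1 : prI ξ.1 * (n * (pI p * b) * DD K) = pI p * M := by
      rw [hM]
      calc prI ξ.1 * (n * (pI p * b) * DD K) = prI ξ.1 * (pI p * (n * b * DD K)) := by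
            rw [mul_left_comm n, mul_assoc (pI p)]
        _ = pI p * (prI ξ.1 * (n * b * DD K)) := by rw [mul_left_comm]
    have e3 : ((ξ.1 : Kˣ) : K) ∈ Id.m ((DD K)⁻¹ * (n * b)⁻¹) ↔ IsInt M := by
      rw [nh_mem, hM, mul_inv, inv_inv, inv_inv, mul_comm (DD K)]
    have e4 : ((ξ.1 : Kˣ) : K) ∈ Id.m ((DD K)⁻¹ * (pI p * (n * b))⁻¹) ↔ IsInt (pI p * M) := by
      rw [nh_mem, hM, mul_inv, inv_inv, inv_inv, mul_comm (DD K), mul_assoc (pI p),
        mul_left_comm]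
    rw [← hM, e1]
    have e5 : ∑ β ∈ S, B (pI p * M) * N.xk k (-μ) ((ξ.1 : Kˣ) : K) *
        eT ((ξ.1 : Kˣ) : K) (trH (em β) z) =
        B (pI p * M) * N.xk k (-μ) ((ξ.1 : Kˣ) : K) * eT ((ξ.1 : Kˣ) : K) z *
          ∑ β ∈ S, cexp (2 * Real.pi * Complex.I *
            ((∑ w : Em K, w (((ξ.1 : Kˣ) : K) * β) : ℝ) : ℂ)) := by
      rw [Finset.mul_sum]
      refine Finset.sum_congr rfl fun β _ => ?_
      rw [nh_eT]
      ring
    rw [e5]
    by_cases hMi : IsInt M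
    · have hMp : IsInt (pI p * M) := isInt_mul (nh_fr p) hMi
      have h6 := (char_sum hle hS (e4.2 hMp)).1 (e3.2 hMi)
      rw [Finset.sum_congr rfl h6, Finset.sum_const, nsmul_eq_mul, mul_one, if_pos hMi]
      have h7 : ((S.card : ℕ) : ℂ) = (qP p : ℂ) := by
        have h8 := repq_card hle hS
        rw [nI_mul, mul_div_cancel_right₀ _ (nI_pos _).ne', nh_q] at h8
        exact_mod_cast h8
      rw [h7]
      ring
    · rw [if_neg hMi]
      by_cases hMp : IsInt (pI p * M)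
      · rw [(char_sum hle hS (e4.2 hMp)).2 (fun h => hMi (e3.1 h))]
        ring
      · rw [hB.int _ hMp]
        ring
  rw [h2]
  exact h1

open Classical in
theorem nh_key {B₁ B₂ : Id K → ℂ} (hB : CoZ k μ F B₁) {c : ℂ}
    (h0 : ∀ m, ¬ IsInt m → B₂ m = 0)
    (h : ∀ (b : Id K) (z : Em K → ℍ), HasSum (fun ξ : Kp K => B₂ (prI ξ.1 * (n * b * DD K)) *
        N.xk k (-μ) ((ξ.1 : Kˣ) : K) * eT ((ξ.1 : Kˣ) : K) z) (c * F z (sZ n b))) (m : Id K) :
    B₂ m = c * B₁ m := by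
  have h1 : B₂ = fun m => c * B₁ m := by
    refine coZ_uniq (n := n) (k := k) (μ := -μ) h0 (fun m hm => by rw [hB.int m hm, mul_zero])
      fun b z => ⟨c * F z (sZ n b), h b z, ?_⟩
    have h2 := (hB.exp b z).mul_left c
    have h3 : (fun ξ : Kp K => c * B₁ (prI ξ.1 * (n * b * DD K)) *
        N.xk k (-μ) ((ξ.1 : Kˣ) : K) * eT ((ξ.1 : Kˣ) : K) z) =
        fun ξ : Kp K => c * (B₁ (prI ξ.1 * (n * b * DD K)) *
        N.xk k (-μ) ((ξ.1 : Kˣ) : K) * eT ((ξ.1 : Kˣ) : K) z) := by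
      funext ξ
      ring
    rw [h3]
    exact h2
  rw [h1]

theorem hec_Z (hn : IsInt n) (h : PEig n k μ om lam F) {B : Id K → ℂ} (hB : CoZ k μ F B)
    {p : Pr K} (hp : ¬ Dv p n) (m : Id K) (hm : IsInt m) : B (m / pI p) +
      (qP p : ℂ) * wP n om p * B (pI p * m) = ((√(qP p : ℝ) : ℝ) : ℂ) * lam p * B m := by
  classical
  have key := nh_key (n := n) (k := k) (μ := μ) (F := F) hB
    (B₂ := fun m => if IsInt m then B (m / pI p) + (qP p : ℂ) * wP n om p * B (pI p * m) else 0)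
    (c := ((√(qP p : ℝ) : ℝ) : ℂ) * lam p) (fun m hm => if_neg hm) ?_ m
  · simpa only [if_pos hm] using key
  · intro b z
    have hle : Id.m (pI p * (n * b)) ≤ Id.m (n * b) := by
      rw [← isInt_div, mul_div_assoc, div_self', mul_one]
      exact nh_fr p
    obtain ⟨S, hS⟩ := repq_exists hle
    have h1 := h.up p z (sZ n b)
    rw [tp_Z hn hp b hS] at h1
    have h2 : ∀ β ∈ S, F z ((ptZ b (cp_pI hp)).mul (nm β : GL (Fin 2) K)) =
        wP n om p * F (trH (em β) z) (sZ n (pI p * b)) := by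
      intro β _
      rw [form_nm h.form, h.form.scal _ _ _ (ptS_sc hn (cp_pI hp)).2, nh_wP hp]
    rw [Finset.sum_congr rfl h2, ← Finset.mul_sum] at h1
    have h3 := (hB.exp (b / pI p) z).add ((nh_sum hB p b z hS).mul_left (wP n om p))
    rw [h1] at h3
    refine (congrArg (fun f => HasSum f _) ?_).mp h3
    funext ξ
    obtain ⟨M, hM⟩ : ∃ M : Id K, M = prI ξ.1 * (n * b * DD K) := ⟨_, rfl⟩
    have e1 : prI ξ.1 * (n * (b / pI p) * DD K) = M / pI p := by
      rw [hM, div_eq_mul_inv, div_eq_mul_inv]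
      calc prI ξ.1 * (n * (b * (pI p)⁻¹) * DD K) = prI ξ.1 * (n * b * ((pI p)⁻¹ * DD K)) := by
            rw [← mul_assoc n, mul_assoc (n * b)]
        _ = prI ξ.1 * (n * b * DD K) * (pI p)⁻¹ := by
            rw [mul_comm (pI p)⁻¹, ← mul_assoc (n * b), ← mul_assoc (prI ξ.1)]
    rw [← hM, e1]
    by_cases hMi : IsInt M
    · simp only [if_pos hMi]
      ring
    · simp only [if_neg hMi]
      rw [hB.int (M / pI p) (fun h => hMi (nh_div_int p h))]
      ring

theorem hec_Z_dv (hn : IsInt n) (h : PEig n k μ om lam F) {B : Id K → ℂ} (hB : CoZ k μ F B)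
    {p : Pr K} (hp : Dv p n) (m : Id K) (hm : IsInt m) :
    (qP p : ℂ) * B (pI p * m) = ((√(qP p : ℝ) : ℝ) : ℂ) * starRingEnd ℂ (lam p) * B m := by
  classical
  have key := nh_key (n := n) (k := k) (μ := μ) (F := F) hB
    (B₂ := fun m => if IsInt m then (qP p : ℂ) * B (pI p * m) else 0)
    (c := ((√(qP p : ℝ) : ℝ) : ℂ) * starRingEnd ℂ (lam p)) (fun m hm => if_neg hm) ?_ m
  · simpa only [if_pos hm] using key
  · intro b z
    have hle : Id.m (pI p * (n * b)) ≤ Id.m (n * b) := by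
      rw [← isInt_div, mul_div_assoc, div_self', mul_one]
      exact nh_fr p
    obtain ⟨S, hS⟩ := repq_exists hle
    have h1 := h.dn p z (sZ n b)
    rw [ts_Z hn hp b hS] at h1
    have h2 : ∀ β ∈ S, F z ((sZ n (pI p * b)).mul (nm β : GL (Fin 2) K)) =
        F (trH (em β) z) (sZ n (pI p * b)) := fun β _ => form_nm h.form β z _
    rw [Finset.sum_congr rfl h2] at h1
    rw [← h1]
    exact nh_sum hB p b z hS


end tr

end Pool.Agent.HSG.LV
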