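import Pool.Agent.Lib_helper84.NE.Defs
import Pool.Agent.Lib_helper84.HSGF.GI1
import Pool.Agent.Lib_helper45.HSF.KI
import Pool.Agent.Lib_helper84.LVF.LI2
import Pool.Agent.Lib_helper84.LVF.LN
import Pool.Agent.Lib_helper84.NEF.NG

/-! # Block NI (ONE): the first coefficient -/

namespace Pool.Agent.HSG.LV

open Complex MeasureTheory Filter Topology UpperHalfPlane NumberField IsDedekindDomain
open scoped nonZeroDivisors MatrixGroups ENNReal

variable {K : Type} [Field K] [NumberField K]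

variable {n : Id K} {k : Em K → ℕ} {μ : Em K → ℝ} {om : Id K → ℂ} {lam : Pr K → ℂ}
  {F : (Em K → ℍ) → Pt n → ℂ}

section tr
variable [IsTotallyReal K]

/-- a form whose coefficients at the points `(b ⊕ O, (0,1))` vanish is zero -/
theorem coS_zero (hn : IsInt n) (hF : PForm n k μ om F) (h : ∀ b z, F z (sS n b) = 0)
    (z : Em K → ℍ) (x : Pt n) : F z x = 0 := by
  obtain ⟨g, hg⟩ := to_std hn x
  have hdet : ((g : GL (Fin 2) K) : Matrix (Fin 2) (Fin 2) K).det = 1 := by
    rw [Matrix.SpecialLinearGroup.coe_GL_coe_matrix]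
    exact g.2
  have hx : (sS n x.L.det).mul (g : GL (Fin 2) K) = x := by
    rw [← hg]
    show (x.mul ((g : GL (Fin 2) K)⁻¹)).mul (g : GL (Fin 2) K) = x
    rw [← pt_mul_mul, inv_mul_cancel, pt_mul_one]
  have h1 := hF.slash (g : GL (Fin 2) K) (fun w => by rw [hdet, map_one]; exact one_pos) z
    (sS n x.L.det)
  rw [h, hx] at h1
  rcases mul_eq_zero.1 h1.symm with h2 | h2
  · exfalso
    rw [Finset.prod_eq_zero_iff] at h2
    obtain ⟨w, -, hw⟩ := h2
    rw [hdet, map_one, Complex.ofReal_one, Complex.one_cpow, mul_one] at hw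
    exact pow_ne_zero _ (lz_ne (gi_row_ne (g : GL (Fin 2) K) 1) z w) hw
  · exact h2

theorem coS_one (hn : IsInt n) (h : PEig n k μ om lam F) {A : Id K → ℂ} (hA : CoS k μ F A) :
    A 1 ≠ 0 := by
  intro h1
  have hA0 : ∀ m, A m = 0 := by
    intro m
    by_cases hm : IsInt m
    · obtain ⟨j, rfl⟩ := (HS.idl_surj m).1 hm
      rw [co_S (wP n om) lam hA.int (fun p m hm => hec_S hn h hA p m hm) j, h1, zero_mul, zero_mul]
    · exact hA.int m hm
  obtain ⟨z, x, hx⟩ := h.ne
  apply hx
  refine coS_zero hn h.form (fun b z => ?_) z x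
  have h2 := hA.exp b z
  simp only [hA0, zero_mul] at h2
  exact h2.unique hasSum_zero

end tr

end Pool.Agent.HSG.LV
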