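import Pool.Agent.Lib_helper84.NE.Defs
import Pool.Agent.Lib_helper84.HSGF.GH
import Pool.Agent.Lib_helper84.LVF.LN
import Pool.Agent.Lib_helper84.NEF.NB
import Pool.Agent.Lib_helper84.NEF.NE
import Pool.Agent.Lib_helper84.NEF.NF
import Pool.Agent.Lib_helper84.NEF.NG
import Pool.Agent.Lib_helper84.NEF.NH
import Pool.Agent.Lib_helper84.NEF.NI
import Pool.Agent.Lib_helper84.NEF.NJ

/-! ## Block NK (FRI): the expansion and the Fricke relation (cites NB-NJ) -/

namespace Pool.Agent.HSG.LV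

open Complex MeasureTheory Filter Topology UpperHalfPlane NumberField IsDedekindDomain
open scoped nonZeroDivisors MatrixGroups ENNReal

variable {K : Type} [Field K] [NumberField K]

variable {n : Id K} {k : Em K → ℕ} {μ : Em K → ℝ} {om : Id K → ℂ} {lam : Pr K → ℂ}
  {F : (Em K → ℍ) → Pt n → ℂ}

theorem nk_half (m : Id K) : (√(nI m))⁻¹ = nI m ^ (-(1 / 2) : ℝ) := by
  rw [Real.sqrt_eq_rpow, Real.rpow_neg (nI_pos m).le]

theorem nk_coS {A : Id K → ℂ} (hA : CoS k μ F A) (c : ℂ) :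
    CoS k μ (fun z x => c * F z x) (fun m => c * A m) := by
  refine ⟨fun m hm => by rw [hA.int m hm, mul_zero], ?_, fun b z => ?_⟩
  · obtain ⟨C, hC⟩ := hA.bdd
    refine ⟨‖c‖ * C, fun m => ?_⟩
    rw [norm_mul]
    exact mul_le_mul_of_nonneg_left (hC m) (norm_nonneg _)
  · refine ((hA.exp b z).mul_left c).congr_fun ?_
    intro ξ
    ring

theorem nk_coZ {B : Id K → ℂ} (hB : CoZ k μ F B) (c : ℂ) :
    CoZ k μ (fun z x => c * F z x) (fun m => c * B m) := by
  refine ⟨fun m hm => by rw [hB.int m hm, mul_zero], ?_, fun b z => ?_⟩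
  · obtain ⟨C, hC⟩ := hB.bdd
    refine ⟨‖c‖ * C, fun m => ?_⟩
    rw [norm_mul]
    exact mul_le_mul_of_nonneg_left (hC m) (norm_nonneg _)
  · refine ((hB.exp b z).mul_left c).congr_fun ?_
    intro ξ
    ring

variable [IsTotallyReal K]

/-- the normalised form and its expansions at the two kinds of points -/
theorem eig_exp (hn : IsInt n) (hk : ∀ w, 1 ≤ k w) (h : PEig n k μ om lam F) :
    ∃ c W : ℂ, c ≠ 0 ∧ CoS k μ (fun z x => c * F z x)
        (fun m => lamF (wP n om) lam m * ((nI m ^ (-(1 / 2) : ℝ) : ℝ) : ℂ)) ∧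
      CoZ k μ (fun z x => c * F z x)
        (fun m => W * starRingEnd ℂ (lamF (wP n om) lam m) *
          ((nI m ^ (-(1 / 2) : ℝ) : ℝ) : ℂ)) := by
  obtain ⟨A, hA⟩ := coS_exists hn hk h.form
  obtain ⟨B, hB⟩ := coZ_exists hn hk h.form
  have hA1 := coS_one hn h hA
  refine ⟨(A 1)⁻¹, (A 1)⁻¹ * B 1, inv_ne_zero hA1, ?_, ?_⟩
  · have e : (fun m => lamF (wP n om) lam m * ((nI m ^ (-(1 / 2) : ℝ) : ℝ) : ℂ)) =
        fun m => (A 1)⁻¹ * A m := by
      funext m
      by_cases hm : IsInt m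
      · obtain ⟨j, rfl⟩ := idl_sur hm
        rw [lamF_idl, co_S (wP n om) lam hA.int (fun p m hm => hec_S hn h hA p m hm) j, nk_half]
        field_simp
      · rw [lamF_int _ _ hm, hA.int m hm]
        simp
    rw [e]
    exact nk_coS hA _
  · have e : (fun m => (A 1)⁻¹ * B 1 * starRingEnd ℂ (lamF (wP n om) lam m) *
          ((nI m ^ (-(1 / 2) : ℝ) : ℝ) : ℂ)) = fun m => (A 1)⁻¹ * B m := by
      funext m
      by_cases hm : IsInt m
      · obtain ⟨j, rfl⟩ := idl_sur hm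
        rw [lamF_idl, co_Z n (wP n om) lam (fun p hp => (wP_norm h p).1 hp)
          (fun p hp => (wP_norm h p).2 hp) (fun p hp => lam_conj hn h hp) hB.int
          (fun p m hp hm => hec_Z hn h hB hp m hm)
          (fun p m hp hm => hec_Z_dv hn h hB hp m hm) j, nk_half]
        ring
      · rw [lamF_int _ _ hm, hB.int m hm]
        simp
    rw [e]
    exact nk_coZ hB _


end Pool.Agent.HSG.LV
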