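import Pool.Agent.Lib_helper84.NE.Defs
import Pool.Agent.Lib_helper84.NEF.NA
import Pool.Agent.Lib_helper84.NEF.NC
import Pool.Agent.Lib_helper84.NEF.NI
import Pool.Agent.Lib_helper84.NEF.NJ
import Pool.Agent.Lib_helper84.NEF.NK

/-! # Block NL (NEW): eigenforms are newforms in the sense of HN -/

namespace Pool.Agent.HSG.LV

open Complex MeasureTheory Filter Topology UpperHalfPlane NumberField IsDedekindDomain
open scoped nonZeroDivisors MatrixGroups ENNReal

variable {K : Type} [Field K] [NumberField K]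

variable {n : Id K} {k : Em K → ℕ} {μ : Em K → ℝ} {om : Id K → ℂ} {lam : Pr K → ℂ}
  {F : (Em K → ℍ) → Pt n → ℂ}

theorem nl_wm (z : Em K → ℍ) (w : Em K) : (((wm K • z) w : ℍ) : ℂ) = -1 / (z w : ℂ) := by
  have hdet : 0 < ((Matrix.GeneralLinearGroup.map (n := Fin 2) w
      (wm K : GL (Fin 2) K)).det : ℝ) := by
    rw [Matrix.GeneralLinearGroup.map_det]
    simp
  have h1 : ((wm K • z) w : ℍ) =
      (Matrix.GeneralLinearGroup.map (n := Fin 2) w (wm K : GL (Fin 2) K)) • (z w) := rfl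
  rw [h1, UpperHalfPlane.coe_smul_of_det_pos hdet]
  simp only [UpperHalfPlane.num, UpperHalfPlane.denom]
  have e00 : ((Matrix.GeneralLinearGroup.map (n := Fin 2) w (wm K : GL (Fin 2) K)) 0 0 : ℝ) = 0 := by
    show w ((!![0, -1; 1, 0] : Matrix (Fin 2) (Fin 2) K) 0 0) = 0
    simp
  have e01 : ((Matrix.GeneralLinearGroup.map (n := Fin 2) w (wm K : GL (Fin 2) K)) 0 1 : ℝ) = -1 := by
    show w ((!![0, -1; 1, 0] : Matrix (Fin 2) (Fin 2) K) 0 1) = -1
    simp
  have e10 : ((Matrix.GeneralLinearGroup.map (n := Fin 2) w (wm K : GL (Fin 2) K)) 1 0 : ℝ) = 1 := by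
    show w ((!![0, -1; 1, 0] : Matrix (Fin 2) (Fin 2) K) 1 0) = 1
    simp
  have e11 : ((Matrix.GeneralLinearGroup.map (n := Fin 2) w (wm K : GL (Fin 2) K)) 1 1 : ℝ) = 0 := by
    show w ((!![0, -1; 1, 0] : Matrix (Fin 2) (Fin 2) K) 1 1) = 0
    simp
  rw [e00, e01, e10, e11]
  simp

theorem nl_negc (z : ℍ) : ((N.negc z : ℍ) : ℂ) = -(starRingEnd ℂ) (z : ℂ) := rfl

theorem nl_wm2 (z : Em K → ℍ) : wm K • (wm K • z) = z := by
  funext w
  apply UpperHalfPlane.ext
  rw [nl_wm, nl_wm]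
  have := UpperHalfPlane.ne_zero (z w)
  field_simp

/-- `- conj` and the inversion commute -/
theorem nl_comm (z : Em K → ℍ) :
    (fun w => N.negc ((wm K • (fun w => N.negc (z w))) w)) = wm K • z := by
  funext w
  apply UpperHalfPlane.ext
  rw [nl_negc, nl_wm, nl_wm, nl_negc, map_div₀, map_neg, map_neg, Complex.conj_conj, map_one,
    neg_div_neg_eq, neg_div]

theorem nl_eT (ν : K) (z : Em K → ℍ) :
    (starRingEnd ℂ) (eT ν (fun w => N.negc (z w))) = eT ν z := by
  unfold eT
  rw [← Complex.exp_conj]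
  congr 1
  rw [map_mul, map_sum, map_mul, map_mul, Complex.conj_I, Complex.conj_ofReal]
  have h2 : (starRingEnd ℂ) 2 = 2 := by
    have := Complex.conj_ofReal 2
    simpa using this
  rw [h2]
  have h3 : ∀ w : Em K, (starRingEnd ℂ) (((w ν : ℝ) : ℂ) * ((N.negc (z w) : ℍ) : ℂ)) =
      -(((w ν : ℝ) : ℂ) * (z w : ℂ)) := by
    intro w
    rw [nl_negc, map_mul, Complex.conj_ofReal, map_neg, Complex.conj_conj]
    ring
  simp only [h3, Finset.sum_neg_distrib]
  ring

section tr2
variable [IsTotallyReal K]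

omit [IsTotallyReal K] in
theorem nl_rel (h : PEig n k μ om lam F) {c W : ℂ}
    (hS : CoS k μ (fun z x => c * F z x)
        (fun m => lamF (wP n om) lam m * ((nI m ^ (-(1 / 2) : ℝ) : ℝ) : ℂ)))
    (hZ : CoZ k μ (fun z x => c * F z x)
        (fun m => W * starRingEnd ℂ (lamF (wP n om) lam m) *
          ((nI m ^ (-(1 / 2) : ℝ) : ℝ) : ℂ))) (b : Id K) (z : Em K → ℍ) :
    c * F (wm K • z) (sS n b) = W * (∏ w, (z w : ℂ) ^ k w) *
      (starRingEnd ℂ) (c * F (fun w => N.negc (z w)) (sS n (n * b)⁻¹)) := by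
  have h1 := hZ.exp b z
  have h2 := (hS.exp (n * b)⁻¹ (fun w => N.negc (z w))).map (starRingEnd ℂ)
    Complex.continuous_conj
  have h3 := h2.mul_left W
  have h4 : c * F z (sZ n b) =
      W * (starRingEnd ℂ) (c * F (fun w => N.negc (z w)) (sS n (n * b)⁻¹)) := by
    refine h1.unique (cast (congrArg (fun f => HasSum f (W * (starRingEnd ℂ)
      (c * F (fun w => N.negc (z w)) (sS n (n * b)⁻¹)))) (funext fun ξ => ?_)) h3)
    have e1 : prI ξ.1 * DD K / (n * b)⁻¹ = prI ξ.1 * (n * b * DD K) := by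
      rw [div_inv_eq_mul, mul_assoc, mul_comm (DD K)]
    simp only [Function.comp_apply, e1, map_mul, Complex.conj_ofReal]
    rw [nl_eT, ← (xk_norm k μ ξ.2).2.2]
    ring
  rw [form_wm h.form b z]
  calc c * ((∏ w, (z w : ℂ) ^ k w) * F z (sZ n b)) =
        (∏ w, (z w : ℂ) ^ k w) * (c * F z (sZ n b)) := by ring
    _ = _ := by rw [h4]; ring

theorem newform_of_eigen (hn : IsInt n) (hk : ∀ w, 1 ≤ k w) (h : PEig n k μ om lam F) :
    ∃ c : ℂ, c ≠ 0 ∧ N.LForm n k μ (omF n om) (fun z L v => c * raw F z L v) ∧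
      N.Co k μ (lamF (wP n om) lam) (fun z L v => c * raw F z L v) ∧
      N.Fricke n k (fun z L v => c * raw F z L v) := by
  obtain ⟨c, W, hc, hS, hZ⟩ := eig_exp hn hk h
  have rel := nl_rel h hS hZ
  refine ⟨c, hc, lform_smul (raw_form hn h.form) c, ⟨fun m hm => lamF_int _ _ hm, ?_, ?_⟩, ?_⟩
  · obtain ⟨C, hC⟩ := hS.bdd
    refine ⟨C, 1 / 2, fun m => ?_⟩
    have h1 := hC m
    have hp := nI_pos m
    rw [norm_mul, Complex.norm_real, Real.norm_of_nonneg (Real.rpow_nonneg hp.le _),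
      Real.rpow_neg hp.le, ← div_eq_mul_inv, div_le_iff₀ (Real.rpow_pos_of_pos hp _)] at h1
    exact h1
  · intro b z
    rw [(raw_S b z).1]
    exact hS.exp b z
  · -- a value which does not vanish
    have hne : ∃ (b : Id K) (z : Em K → ℍ), c * F (wm K • z) (sS n b) ≠ 0 := by
      by_contra hcon
      push Not at hcon
      obtain ⟨z0, x0, h0⟩ := h.ne
      apply h0
      refine coS_zero hn h.form (fun b z => ?_) z0 x0
      have h1 := hcon b (wm K • z)
      rw [nl_wm2] at h1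
      exact (mul_eq_zero.1 h1).resolve_left hc
    have hW : W * (starRingEnd ℂ) W = 1 := by
      obtain ⟨b, z, hbz⟩ := hne
      have r1 := rel b z
      have r2 := rel (n * b)⁻¹ (wm K • (fun w => N.negc (z w)))
      rw [nl_wm2] at r2
      have e1 : (n * (n * b)⁻¹)⁻¹ = b := by
        rw [mul_inv, inv_inv, ← mul_assoc, inv_mul_cancel, one_mul]
      rw [e1, nl_comm] at r2
      rw [r2] at r1
      simp only [map_mul, Complex.conj_conj, map_prod, map_pow] at r1
      have e2 : (∏ w : Em K, (z w : ℂ) ^ k w) * ∏ w : Em K, (starRingEnd ℂ)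
          (((wm K • (fun w => N.negc (z w))) w : ℍ) : ℂ) ^ k w = 1 := by
        rw [← Finset.prod_mul_distrib]
        apply Finset.prod_eq_one
        intro w _
        rw [nl_wm, nl_negc, ← mul_pow]
        have hz := UpperHalfPlane.ne_zero (z w)
        have e3 : (z w : ℂ) * (starRingEnd ℂ) (-1 / -(starRingEnd ℂ) (z w : ℂ)) = 1 := by
          rw [map_div₀, map_neg, map_neg, Complex.conj_conj, map_one]
          field_simp
        rw [e3, one_pow]
      have e4 : c * F (wm K • z) (sS n b) =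
          (W * (starRingEnd ℂ) W) * (c * F (wm K • z) (sS n b)) := by
        calc c * F (wm K • z) (sS n b) = _ := r1
          _ = (W * (starRingEnd ℂ) W) * ((∏ w : Em K, (z w : ℂ) ^ k w) *
            ∏ w : Em K, (starRingEnd ℂ)
              (((wm K • (fun w => N.negc (z w))) w : ℍ) : ℂ) ^ k w) *
              (c * F (wm K • z) (sS n b)) := by ring
          _ = _ := by rw [e2]; ring
      have e5 : 1 * (c * F (wm K • z) (sS n b)) =
          (W * (starRingEnd ℂ) W) * (c * F (wm K • z) (sS n b)) := by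
        rw [one_mul]
        exact e4
      exact (mul_right_cancel₀ hbz e5).symm
    refine ⟨W, ?_, ?_⟩
    · rw [Complex.mul_conj] at hW
      have h1 : Complex.normSq W = 1 := by exact_mod_cast hW
      rw [Complex.normSq_eq_norm_sq] at h1
      have h2 := norm_nonneg W
      nlinarith
    · intro b z
      show c * raw F (wm K • z) (Lat.ds b 1) ![0, 1] = W * (∏ w, (z w : ℂ) ^ k w) *
        (starRingEnd ℂ) (c * raw F (fun w => N.negc (z w)) (Lat.ds (n * b)⁻¹ 1) ![0, 1])
      rw [(raw_S b (wm K • z)).1, (raw_S (n * b)⁻¹ (fun w => N.negc (z w))).1]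
      exact rel b z

end tr2


end Pool.Agent.HSG.LV
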